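import Pool.Agent.J4H61.RM.Tens

set_option autoImplicit false

/-!
# Positivity of tensor products over a finite field
-/

namespace Pool.Agent.J4H61.RM

open Module Submodule

variable {K : Type*} [Field K] {M : Type*} [AddCommGroup M] [Module K M]
  {P : Type*} [AddCommGroup P] [Module K P]
variable {X : Type*} [Fintype X] (τ : X → M ≃ₗ[K] M) (T : X → P ≃ₗ[K] P)

theorem tensor_lemma [Finite K] {Q : Submodule K P} (hQ : PosOn T Q)
    (E : Submodule K (Dual K M →ₗ[K] P)) (hE : E ≤ homInto (Dual K M) Q)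
    [FiniteDimensional K E] (M0 : Submodule K M) [FiniteDimensional K M0]
    (hM0 : ∀ Φ ∈ E, ∀ f : Dual K M, (∀ m ∈ M0, f m = 0) → Φ f = 0) (h0 : E ≠ ⊥) :
    1 ≤ chi (tw T fun x => (τ x).dualMap) E := by
  classical
  -- restriction to `M0` and a section
  let res : Dual K M →ₗ[K] Dual K M0 := M0.dualRestrict
  have hres : ∀ (f : Dual K M) (m : M0), res f m = f m := fun f m => rfl
  obtain ⟨s, hs⟩ := res.exists_rightInverse_of_surjective
    (LinearMap.range_eq_top.2 Subspace.dualRestrict_surjective)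
  have hs' : ∀ d, res (s d) = d := fun d => LinearMap.congr_fun hs d
  have hΦ : ∀ Φ ∈ E, ∀ f : Dual K M, Φ (s (res f)) = Φ f := by
    intro Φ hΦ f
    have := hM0 Φ hΦ (s (res f) - f) (by
      intro m hm
      have h1 := LinearMap.congr_fun (hs' (res f)) ⟨m, hm⟩
      rw [hres, hres] at h1
      rw [LinearMap.sub_apply, h1, sub_self])
    rw [map_sub, sub_eq_zero] at this
    exact this
  -- the automorphisms
  have hα : ∀ x, ∃ β : Dual K M0 ≃ₗ[K] Dual K M0, ∀ e ∈ ed (tw T (fun x => (τ x).dualMap) x) E E,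
      ∀ d, e (s (β d)) = e (s (res ((τ x).dualMap (s d)))) := by
    intro x
    let N : Submodule K (Dual K M0) :=
      { carrier := {d | ∀ e ∈ ed (tw T (fun x => (τ x).dualMap) x) E E, e (s d) = 0}
        add_mem' := fun {a b} ha hb e he => by rw [map_add, map_add, ha e he, hb e he, add_zero]
        zero_mem' := fun e he => by rw [map_zero, map_zero]
        smul_mem' := fun c a ha e he => by rw [map_smul, map_smul, ha e he, smul_zero] }
    have hN : ∀ d d', N.mkQ d = N.mkQ d' → ∀ e ∈ ed (tw T (fun x => (τ x).dualMap) x) E E,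
        e (s d) = e (s d') := by
      intro d d' h e he
      have h1 : d - d' ∈ N := by
        rw [← Submodule.ker_mkQ N, LinearMap.mem_ker, map_sub, h, sub_self]
      have h2 := h1 e he
      rw [map_sub, map_sub, sub_eq_zero] at h2
      exact h2
    let A : Dual K M0 →ₗ[K] Dual K M0 := res ∘ₗ ((τ x).dualMap : Dual K M →ₗ[K] Dual K M) ∘ₗ s
    let B : Dual K M0 →ₗ[K] Dual K M0 :=
      res ∘ₗ ((τ x).symm.dualMap : Dual K M →ₗ[K] Dual K M) ∘ₗ s
    have hAB : ∀ d, N.mkQ (A (B d)) = N.mkQ d := by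
      intro d
      rw [← sub_eq_zero, ← map_sub, ← LinearMap.mem_ker, Submodule.ker_mkQ]
      intro e he
      rw [map_sub, map_sub, sub_eq_zero]
      change e (s (res ((τ x).dualMap (s (B d))))) = e (s d)
      rw [hΦ e he.1]
      apply (T x).injective
      have h1 : ∀ f : Dual K M, T x (e ((τ x).dualMap f)) =
        tw T (fun x => (τ x).dualMap) x e f := fun f => rfl
      rw [h1]
      refine (hΦ (tw T (fun x => (τ x).dualMap) x e) he.2 ((τ x).symm.dualMap (s d))).trans ?_
      rw [← h1]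
      congr 2
      ext m
      simp
    have hsurj : Function.Surjective (N.mkQ ∘ₗ A) := by
      intro y
      obtain ⟨d, rfl⟩ := N.mkQ_surjective y
      exact ⟨B d, hAB d⟩
    obtain ⟨β, hβ⟩ := exists_equiv_comp N.mkQ (N.mkQ ∘ₗ A) N.mkQ_surjective hsurj
    exact ⟨β, fun e he d => hN _ _ (hβ d) e he⟩
  choose β hβ using hα
  -- the image in `Hom(Dual M0, P)`
  let ρ : (Dual K M →ₗ[K] P) →ₗ[K] (Dual K M0 →ₗ[K] P) := LinearMap.lcomp K P s
  have hρ : ∀ Φ d, ρ Φ d = Φ (s d) := fun Φ d => rfl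
  have hinj : ∀ Φ ∈ E, ρ Φ = 0 → Φ = 0 := by
    intro Φ hΦE h
    ext f
    rw [← hΦ Φ hΦE, ← hρ, h]
    rfl
  have hfr : ∀ F ≤ E, finrank K (F.map ρ) = finrank K F := by
    intro F hF
    have hFf : FiniteDimensional K F := Submodule.finiteDimensional_of_le hF
    have h1 := finrank_map_add ρ F
    have h2 : F ⊓ LinearMap.ker ρ = ⊥ := by
      rw [eq_bot_iff]
      rintro Φ ⟨hΦF, hk⟩
      exact hinj Φ (hF hΦF) hk
    rw [h2, finrank_bot, add_zero] at h1
    exact h1
  have hE'0 : E.map ρ ≠ ⊥ := by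
    intro h
    apply h0
    rw [eq_bot_iff]
    intro Φ hΦE
    have : ρ Φ ∈ E.map ρ := Submodule.mem_map_of_mem hΦE
    rw [h] at this
    exact hinj Φ hΦE this
  have hpos := posOn_tw (D := Dual K M0) T hQ β (E.map ρ) (by
    rintro _ ⟨Φ, hΦE, rfl⟩ d
    exact hE hΦE _) inferInstance hE'0
  refine hpos.trans ?_
  have hed : ∀ x, finrank K (ed (tw T (fun x => (τ x).dualMap) x) E E) ≤
      finrank K (ed (tw T β x) (E.map ρ) (E.map ρ)) := by
    intro x
    rw [← hfr _ (ed_le _ _ _)]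
    apply Submodule.finrank_mono
    rintro _ ⟨e, he, rfl⟩
    refine ⟨Submodule.mem_map_of_mem he.1, ?_⟩
    refine ⟨tw T (fun x => (τ x).dualMap) x e, he.2, ?_⟩
    ext d
    change T x (e ((τ x).dualMap (s d))) = T x (e (s (β x d)))
    rw [hβ x e he, hΦ e he.1]
  have hsum : ∑ x, (finrank K (ed (tw T (fun x => (τ x).dualMap) x) E E) : ℤ) ≤
      ∑ x, (finrank K (ed (tw T β x) (E.map ρ) (E.map ρ)) : ℤ) :=
    Finset.sum_le_sum fun x _ => by exact_mod_cast hed x
  have h1 := hfr E le_rfl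
  unfold chi
  rw [h1]
  linarith

end Pool.Agent.J4H61.RM
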