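import Pool.Agent.J4H61.RM.FreePos
import Pool.Agent.J4H61.RM.Dual

set_option autoImplicit false

/-!
# Permutation modules: the augmentation and the comultiplication
-/

namespace Pool.Agent.J4H61.RM

open Module Submodule

section aug

variable (K : Type*) [Field K] {X : Type*} (Ω : Type*)

/-- The augmentation of the permutation module. -/
noncomputable def aug : (Ω →₀ K) →ₗ[K] K := Finsupp.linearCombination K fun _ => (1 : K)

lemma aug_single (ω : Ω) (c : K) : aug K Ω (Finsupp.single ω c) = c := by
  simp [aug]

variable {K Ω}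

lemma aug_act [MulAction (FreeGroup X) Ω] (g : FreeGroup X) (v : Ω →₀ K) :
    aug K Ω (act K Ω g v) = aug K Ω v := by
  have : aug K Ω ∘ₗ (act K Ω g : _ →ₗ[K] _) = aug K Ω := by
    refine Finsupp.lhom_ext fun ω c => ?_
    change aug K Ω (act K Ω g (Finsupp.single ω c)) = _
    rw [act_single, aug_single, aug_single]
  exact LinearMap.congr_fun this v

lemma aug_opp [MulAction (FreeGroup X) Ω] (x : X) (v : Ω →₀ K) :
    aug K Ω (opp K X Ω x v) = aug K Ω v := aug_act _ _

lemma aug_opp_symm [MulAction (FreeGroup X) Ω] (x : X) (v : Ω →₀ K) :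
    aug K Ω ((opp K X Ω x).symm v) = aug K Ω v := by
  conv_rhs => rw [← (opp K X Ω x).apply_symm_apply v, aug_opp]

end aug

section com

variable {K : Type*} [Field K] {Ω : Type*} {M : Type*} [AddCommGroup M] [Module K M]
  (π : (Ω →₀ K) →ₗ[K] M)

/-- The image of the basis vector. -/
noncomputable def bb (γ : Ω) : M := π (Finsupp.single γ 1)

lemma pi_eq (v : Ω →₀ K) : π v = v.sum fun γ c => c • bb π γ := by
  have : π = Finsupp.linearCombination K (bb π) := by
    refine Finsupp.lhom_ext fun γ c => ?_
    rw [Finsupp.linearCombination_single, bb, ← map_smul, Finsupp.smul_single_one]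
  conv_lhs => rw [this]
  rfl

/-- The comultiplication: `γ ↦ (f ↦ f(γ̄) γ̄)`. -/
noncomputable def com : (Ω →₀ K) →ₗ[K] (Dual K M →ₗ[K] M) :=
  Finsupp.linearCombination K fun γ => LinearMap.smulRight (Module.Dual.eval K M (bb π γ)) (bb π γ)

lemma com_single (γ : Ω) (c : K) (f : Dual K M) :
    com π (Finsupp.single γ c) f = c • f (bb π γ) • bb π γ := by
  simp [com, LinearMap.smulRight_apply]

lemma com_apply (v : Ω →₀ K) (f : Dual K M) :
    com π v f = v.sum fun γ c => c • f (bb π γ) • bb π γ := by
  rw [com, Finsupp.linearCombination_apply, Finsupp.sum, LinearMap.sum_apply]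
  rfl

/-- If the comultiplication kills the kernel of `π` then distinct images of basis vectors are
linearly independent. -/
lemma indep (h1 : LinearMap.ker π ≤ LinearMap.ker (com π)) (hb : ∀ γ, bb π γ ≠ 0)
    (v : Ω →₀ K) (hinj : Set.InjOn (bb π) (v.support : Set Ω)) (hv : π v = 0) : v = 0 := by
  classical
  have key : ∀ (n : ℕ) (v : Ω →₀ K), v.support.card = n →
      Set.InjOn (bb π) (v.support : Set Ω) → π v = 0 → v = 0 := by
    intro n
    induction n using Nat.strong_induction_on with
    | _ n ih =>
    intro v hn hinj hv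
    by_contra h0
    obtain ⟨γ0, hγ0⟩ := Finsupp.support_nonempty_iff.2 h0
    have hD : com π v = 0 := h1 hv
    have hall : ∀ γ ∈ v.support, ∀ f : Dual K M, f (bb π γ) = f (bb π γ0) := by
      intro γ hγ f
      -- the modified vector
      let w : Ω →₀ K := Finsupp.onFinset v.support
        (fun γ => v γ * (f (bb π γ) - f (bb π γ0))) (by
          intro a ha
          rw [Finsupp.mem_support_iff]
          exact left_ne_zero_of_mul ha)
      have hw : ∀ γ, w γ = v γ * (f (bb π γ) - f (bb π γ0)) := fun γ => rfl
      have hws : w.support ⊆ v.support.erase γ0 := by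
        intro a ha
        rw [Finsupp.mem_support_iff, hw] at ha
        rw [Finset.mem_erase]
        refine ⟨?_, Finsupp.mem_support_iff.2 (left_ne_zero_of_mul ha)⟩
        rintro rfl
        apply ha
        rw [sub_self, mul_zero]
      have hwv : w.support ⊆ v.support := hws.trans (Finset.erase_subset _ _)
      have hπw : π w = 0 := by
        have h2 : π w = com π v f - f (bb π γ0) • π v := by
          rw [pi_eq π w, pi_eq π v, com_apply, Finsupp.sum_of_support_subset w hwv _ (by simp),
            Finsupp.sum, Finsupp.sum, Finset.smul_sum, ← Finset.sum_sub_distrib]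
          refine Finset.sum_congr rfl fun γ _ => ?_
          rw [hw, mul_sub, sub_smul, mul_smul, mul_comm, mul_smul]
        rw [h2, hD, hv, smul_zero, LinearMap.zero_apply, sub_zero]
      have hcard : w.support.card < n := by
        rw [← hn]
        exact (Finset.card_le_card hws).trans_lt (Finset.card_erase_lt_of_mem hγ0)
      have := ih _ hcard w rfl (hinj.mono (by exact_mod_cast hwv)) hπw
      have h3 := hw γ
      rw [this, Finsupp.zero_apply] at h3
      have h4 := (mul_eq_zero.1 h3.symm).resolve_left (Finsupp.mem_support_iff.1 hγ)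
      exact sub_eq_zero.1 h4
    have hsub : v.support = {γ0} := by
      refine Finset.eq_singleton_iff_unique_mem.2 ⟨hγ0, fun γ hγ => ?_⟩
      apply hinj hγ hγ0
      rw [← sub_eq_zero, ← Module.forall_dual_apply_eq_zero_iff K]
      intro f
      rw [map_sub, hall γ hγ f, sub_self]
    rw [pi_eq, Finsupp.sum, hsub, Finset.sum_singleton] at hv
    rcases smul_eq_zero.1 hv with h | h
    · exact Finsupp.mem_support_iff.1 hγ0 h
    · exact hb _ h
  exact key _ v rfl hinj hv

end com

end Pool.Agent.J4H61.RM
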