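import Mathlib

set_option autoImplicit false

/-!
# Euler characteristics of finite-dimensional subspaces

Let `T x`, `x : X`, be automorphisms of the vector space `V` (`X` finite). For a finite-dimensional
subspace `E` put `chi T E = dim E - ∑ x, dim {e ∈ E | T x e ∈ E}`.
-/

namespace Pool.Agent.J4H61.RM

open Module Submodule

section ed

variable {K V : Type*} [Field K] [AddCommGroup V] [Module K V]

/-- The vectors of `E` which `φ` maps into `E'`. -/
def ed (φ : V ≃ₗ[K] V) (E E' : Submodule K V) : Submodule K V :=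
  E ⊓ E'.comap (φ : V →ₗ[K] V)

lemma mem_ed {φ : V ≃ₗ[K] V} {E E' : Submodule K V} {v : V} :
    v ∈ ed φ E E' ↔ v ∈ E ∧ φ v ∈ E' := Iff.rfl

lemma ed_le (φ : V ≃ₗ[K] V) (E E' : Submodule K V) : ed φ E E' ≤ E := inf_le_left

lemma ed_mono {φ : V ≃ₗ[K] V} {E E' F F' : Submodule K V} (h : E ≤ F) (h' : E' ≤ F') :
    ed φ E E' ≤ ed φ F F' := fun _ hv => ⟨h hv.1, h' hv.2⟩

lemma ed_inf (φ : V ≃ₗ[K] V) (E E' F F' : Submodule K V) :
    ed φ (E ⊓ F) (E' ⊓ F') = ed φ E E' ⊓ ed φ F F' := by
  ext v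
  simp only [mem_ed, mem_inf]
  tauto

lemma ed_sup_le (φ : V ≃ₗ[K] V) (E E' F F' : Submodule K V) :
    ed φ E E' ⊔ ed φ F F' ≤ ed φ (E ⊔ F) (E' ⊔ F') :=
  sup_le (ed_mono le_sup_left le_sup_left) (ed_mono le_sup_right le_sup_right)

instance ed_fd (φ : V ≃ₗ[K] V) (E E' : Submodule K V) [FiniteDimensional K E] :
    FiniteDimensional K (ed φ E E') :=
  Submodule.finiteDimensional_of_le (ed_le φ E E')

lemma finrank_ed_add (φ : V ≃ₗ[K] V) (E E' F F' : Submodule K V) [FiniteDimensional K E]
    [FiniteDimensional K F] :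
    finrank K (ed φ E E') + finrank K (ed φ F F') ≤
      finrank K (ed φ (E ⊔ F) (E' ⊔ F')) + finrank K (ed φ (E ⊓ F) (E' ⊓ F')) := by
  rw [ed_inf, ← Submodule.finrank_sup_add_finrank_inf_eq]
  gcongr
  exact Submodule.finrank_mono (ed_sup_le φ E E' F F')

end ed

section chi

variable {K V : Type*} [Field K] [AddCommGroup V] [Module K V]
variable {X : Type*} [Fintype X] (T : X → V ≃ₗ[K] V)

/-- The Euler characteristic of a finite-dimensional subspace. -/
noncomputable def chi (E : Submodule K V) : ℤ :=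
  (finrank K E : ℤ) - ∑ x, (finrank K (ed (T x) E E) : ℤ)

lemma chi_bot : chi T ⊥ = 0 := by
  have h : ∀ x, finrank K (ed (T x) ⊥ ⊥) = 0 := by
    intro x
    have : ed (T x) ⊥ ⊥ = ⊥ := by
      rw [eq_bot_iff]; exact ed_le _ _ _
    rw [this, finrank_bot]
  simp [chi, h]

/-- Submodularity. -/
lemma chi_sup_add_inf (E F : Submodule K V) [FiniteDimensional K E] [FiniteDimensional K F] :
    chi T (E ⊔ F) + chi T (E ⊓ F) ≤ chi T E + chi T F := by
  have h1 := Submodule.finrank_sup_add_finrank_inf_eq (K := K) E F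
  have h2 : ∑ x, (finrank K (ed (T x) E E) : ℤ) + ∑ x, (finrank K (ed (T x) F F) : ℤ) ≤
      ∑ x, (finrank K (ed (T x) (E ⊔ F) (E ⊔ F)) : ℤ) +
        ∑ x, (finrank K (ed (T x) (E ⊓ F) (E ⊓ F)) : ℤ) := by
    rw [← Finset.sum_add_distrib, ← Finset.sum_add_distrib]
    refine Finset.sum_le_sum fun x _ => ?_
    have := finrank_ed_add (T x) E E F F
    exact_mod_cast this
  have h3 : (finrank K ↥(E ⊔ F) : ℤ) + finrank K ↥(E ⊓ F) = finrank K E + finrank K F := by
    exact_mod_cast h1
  unfold chi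
  linarith

lemma chi_le_finrank (E : Submodule K V) : chi T E ≤ finrank K E := by
  unfold chi
  have : 0 ≤ ∑ x, (finrank K (ed (T x) E E) : ℤ) :=
    Finset.sum_nonneg fun _ _ => by positivity
  linarith

lemma chi_ge (E W : Submodule K V) [FiniteDimensional K W] (h : E ≤ W) :
    -((Fintype.card X : ℤ) * finrank K W) ≤ chi T E := by
  have hE : FiniteDimensional K E := Submodule.finiteDimensional_of_le h
  have h1 : ∑ x, (finrank K (ed (T x) E E) : ℤ) ≤ ∑ _x : X, (finrank K W : ℤ) := by
    refine Finset.sum_le_sum fun x _ => ?_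
    exact_mod_cast Submodule.finrank_mono ((ed_le (T x) E E).trans h)
  rw [Finset.sum_const, Finset.card_univ, nsmul_eq_mul] at h1
  unfold chi
  have : (0 : ℤ) ≤ finrank K E := by positivity
  linarith

/-- Adding `T x E` to `E` does not increase the Euler characteristic. -/
lemma chi_grow (E : Submodule K V) [FiniteDimensional K E] (x : X) :
    chi T (E ⊔ E.map (T x : V →ₗ[K] V)) ≤ chi T E := by
  classical
  set E' := E ⊔ E.map (T x : V →ₗ[K] V) with hE'
  have hFD : FiniteDimensional K E' := Submodule.finiteDimensional_sup _ _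
  -- dimension of `E'`
  have h1 := Submodule.finrank_sup_add_finrank_inf_eq (K := K) E (E.map (T x : V →ₗ[K] V))
  have h2 : finrank K (E.map (T x : V →ₗ[K] V)) = finrank K E :=
    LinearEquiv.finrank_map_eq (T x) E
  have h3 : finrank K ↥(E ⊓ E.map (T x : V →ₗ[K] V)) = finrank K (ed (T x) E E) := by
    have : E ⊓ E.map (T x : V →ₗ[K] V) = (ed (T x) E E).map (T x : V →ₗ[K] V) := by
      ext v
      constructor
      · rintro ⟨hv, w, hw, rfl⟩
        exact ⟨w, ⟨hw, hv⟩, rfl⟩
      · rintro ⟨w, ⟨hw, hw'⟩, rfl⟩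
        exact ⟨hw', w, hw, rfl⟩
    rw [this]
    exact LinearEquiv.finrank_map_eq (T x) _
  have h4 : finrank K E ≤ finrank K (ed (T x) E' E') := by
    apply Submodule.finrank_mono
    intro v hv
    exact ⟨le_sup_left (α := Submodule K V) hv,
      le_sup_right (α := Submodule K V) (Submodule.mem_map_of_mem hv)⟩
  have h5 : ∀ y, finrank K (ed (T y) E E) ≤ finrank K (ed (T y) E' E') := fun y =>
    Submodule.finrank_mono (ed_mono le_sup_left le_sup_left)
  have h6 : ∑ y, (finrank K (ed (T y) E E) : ℤ) + finrank K E - finrank K (ed (T x) E E) ≤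
      ∑ y, (finrank K (ed (T y) E' E') : ℤ) := by
    rw [← Finset.add_sum_erase _ _ (Finset.mem_univ x),
      ← Finset.add_sum_erase _ (fun y => (finrank K (ed (T y) E' E') : ℤ)) (Finset.mem_univ x)]
    have : ∑ y ∈ Finset.univ.erase x, (finrank K (ed (T y) E E) : ℤ) ≤
        ∑ y ∈ Finset.univ.erase x, (finrank K (ed (T y) E' E') : ℤ) :=
      Finset.sum_le_sum fun y _ => by exact_mod_cast h5 y
    have h4' : (finrank K E : ℤ) ≤ finrank K (ed (T x) E' E') := by exact_mod_cast h4
    linarith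
  unfold chi
  have h7 : (finrank K E' : ℤ) + finrank K (ed (T x) E E) = finrank K E + finrank K E := by
    rw [← h3, hE']
    have := h1
    rw [h2] at this
    exact_mod_cast this
  linarith

/-- Adding `(T x)⁻¹ E` to `E` does not increase the Euler characteristic. -/
lemma chi_grow_symm (E : Submodule K V) [FiniteDimensional K E] (x : X) :
    chi T (E ⊔ E.map ((T x).symm : V →ₗ[K] V)) ≤ chi T E := by
  classical
  set E' := E ⊔ E.map ((T x).symm : V →ₗ[K] V) with hE'
  have hFD : FiniteDimensional K E' := Submodule.finiteDimensional_sup _ _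
  have h1 := Submodule.finrank_sup_add_finrank_inf_eq (K := K) E
    (E.map ((T x).symm : V →ₗ[K] V))
  have h2 : finrank K (E.map ((T x).symm : V →ₗ[K] V)) = finrank K E :=
    LinearEquiv.finrank_map_eq (T x).symm E
  have h3 : finrank K ↥(E ⊓ E.map ((T x).symm : V →ₗ[K] V)) = finrank K (ed (T x) E E) := by
    have : E ⊓ E.map ((T x).symm : V →ₗ[K] V) = ed (T x) E E := by
      ext v
      constructor
      · rintro ⟨hv, w, hw, rfl⟩
        exact ⟨hv, by simpa using hw⟩
      · rintro ⟨hv, hv'⟩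
        exact ⟨hv, T x v, hv', by simp⟩
    rw [this]
  have h4 : finrank K E ≤ finrank K (ed (T x) E' E') := by
    rw [← h2]
    apply Submodule.finrank_mono
    rintro _ ⟨w, hw, rfl⟩
    refine ⟨le_sup_right (α := Submodule K V) (Submodule.mem_map_of_mem hw), ?_⟩
    have : (T x : V →ₗ[K] V) (((T x).symm : V →ₗ[K] V) w) = w := by simp
    change (T x : V →ₗ[K] V) (((T x).symm : V →ₗ[K] V) w) ∈ E'
    rw [this]
    exact le_sup_left (α := Submodule K V) hw
  have h5 : ∀ y, finrank K (ed (T y) E E) ≤ finrank K (ed (T y) E' E') := fun y =>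
    Submodule.finrank_mono (ed_mono le_sup_left le_sup_left)
  have h6 : ∑ y, (finrank K (ed (T y) E E) : ℤ) + finrank K E - finrank K (ed (T x) E E) ≤
      ∑ y, (finrank K (ed (T y) E' E') : ℤ) := by
    rw [← Finset.add_sum_erase _ _ (Finset.mem_univ x),
      ← Finset.add_sum_erase _ (fun y => (finrank K (ed (T y) E' E') : ℤ)) (Finset.mem_univ x)]
    have : ∑ y ∈ Finset.univ.erase x, (finrank K (ed (T y) E E) : ℤ) ≤
        ∑ y ∈ Finset.univ.erase x, (finrank K (ed (T y) E' E') : ℤ) :=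
      Finset.sum_le_sum fun y _ => by exact_mod_cast h5 y
    have h4' : (finrank K E : ℤ) ≤ finrank K (ed (T x) E' E') := by exact_mod_cast h4
    linarith
  unfold chi
  have h7 : (finrank K E' : ℤ) + finrank K (ed (T x) E E) = finrank K E + finrank K E := by
    rw [← h3, hE']
    have := h1
    rw [h2] at this
    exact_mod_cast this
  linarith

/-- Every finite-dimensional subspace is contained in a stable union of a chain of subspaces with
Euler characteristics which are not larger. -/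
lemma exists_chain (E : Submodule K V) [FiniteDimensional K E] :
    ∃ C : ℕ → Submodule K V, C 0 = E ∧ Monotone C ∧ (∀ n, FiniteDimensional K (C n)) ∧
      (∀ n, chi T (C n) ≤ chi T E) ∧
      (∀ n x, (C n).map (T x : V →ₗ[K] V) ≤ C (n + 1) ∧
        (C n).map ((T x).symm : V →ₗ[K] V) ≤ C (n + 1)) ∧
      ∀ Z : Submodule K V, E ≤ Z → (∀ x, Z.map (T x : V →ₗ[K] V) ≤ Z ∧
        Z.map ((T x).symm : V →ₗ[K] V) ≤ Z) → ∀ n, C n ≤ Z := by
  classical
  have step : ∀ E : {E : Submodule K V // FiniteDimensional K E},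
      ∃ F : {F : Submodule K V // FiniteDimensional K F}, E.1 ≤ F.1 ∧ chi T F.1 ≤ chi T E.1 ∧
        (∀ x, E.1.map (T x : V →ₗ[K] V) ≤ F.1 ∧ E.1.map ((T x).symm : V →ₗ[K] V) ≤ F.1) ∧
        ∀ Z : Submodule K V, E.1 ≤ Z → (∀ x, Z.map (T x : V →ₗ[K] V) ≤ Z ∧
          Z.map ((T x).symm : V →ₗ[K] V) ≤ Z) → F.1 ≤ Z := by
    rintro ⟨E, hE⟩
    have : ∀ s : Finset X, ∃ F : Submodule K V, FiniteDimensional K F ∧ E ≤ F ∧
        chi T F ≤ chi T E ∧ (∀ x ∈ s, E.map (T x : V →ₗ[K] V) ≤ F ∧
          E.map ((T x).symm : V →ₗ[K] V) ≤ F) ∧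
        ∀ Z : Submodule K V, E ≤ Z → (∀ x, Z.map (T x : V →ₗ[K] V) ≤ Z ∧
          Z.map ((T x).symm : V →ₗ[K] V) ≤ Z) → F ≤ Z := by
      intro s
      induction s using Finset.induction_on with
      | empty => exact ⟨E, hE, le_rfl, le_rfl, by simp, fun Z h _ => h⟩
      | insert x s hx ih =>
        obtain ⟨F, hF, h1, h2, h3, h4⟩ := ih
        have hF1 : FiniteDimensional K ↥(F ⊔ F.map (T x : V →ₗ[K] V)) :=
          Submodule.finiteDimensional_sup _ _
        refine ⟨(F ⊔ F.map (T x : V →ₗ[K] V)) ⊔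
          (F ⊔ F.map (T x : V →ₗ[K] V)).map ((T x).symm : V →ₗ[K] V),
          Submodule.finiteDimensional_sup _ _, ?_, ?_, ?_, ?_⟩
        · exact h1.trans (le_sup_left.trans le_sup_left)
        · exact (chi_grow_symm T _ x).trans ((chi_grow T F x).trans h2)
        · intro y hy
          rcases Finset.mem_insert.1 hy with rfl | hy
          · refine ⟨?_, ?_⟩
            · exact (Submodule.map_mono h1).trans (le_sup_right.trans le_sup_left)
            · exact (Submodule.map_mono (h1.trans le_sup_left)).trans le_sup_right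
          · exact ⟨(h3 y hy).1.trans (le_sup_left.trans le_sup_left),
              (h3 y hy).2.trans (le_sup_left.trans le_sup_left)⟩
        · intro Z hZ hZs
          have h5 : F ⊔ F.map (T x : V →ₗ[K] V) ≤ Z :=
            sup_le (h4 Z hZ hZs) ((Submodule.map_mono (h4 Z hZ hZs)).trans (hZs x).1)
          exact sup_le h5 ((Submodule.map_mono h5).trans (hZs x).2)
    obtain ⟨F, hF, h1, h2, h3, h4⟩ := this Finset.univ
    exact ⟨⟨F, hF⟩, h1, h2, fun x => h3 x (Finset.mem_univ x), h4⟩
  choose f hf1 hf2 hf3 hf4 using step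
  let C : ℕ → {E : Submodule K V // FiniteDimensional K E} := fun n =>
    Nat.rec ⟨E, inferInstance⟩ (fun _ F => f F) n
  have hC0 : C 0 = ⟨E, inferInstance⟩ := rfl
  have hCs : ∀ n, C (n + 1) = f (C n) := fun n => rfl
  refine ⟨fun n => (C n).1, rfl, ?_, fun n => (C n).2, ?_, ?_, ?_⟩
  · exact monotone_nat_of_le_succ fun n => hf1 (C n)
  · intro n
    induction n with
    | zero => exact le_rfl
    | succ n ih => exact (hf2 (C n)).trans ih
  · intro n x
    exact hf3 (C n) x
  · intro Z hZ hZs n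
    induction n with
    | zero => exact hZ
    | succ n ih => exact hf4 (C n) Z ih hZs

/-- A finite-dimensional subspace of the union of a chain is contained in one of its members. -/
lemma exists_ge_chain (C : ℕ → Submodule K V) (hC : Monotone C) (S : Submodule K V)
    [FiniteDimensional K S] (h : S ≤ ⨆ n, C n) : ∃ n, S ≤ C n := by
  have hfg : S.FG := (Submodule.fg_iff_finiteDimensional S).2 inferInstance
  have hc := (Submodule.fg_iff_compact S).1 hfg
  obtain ⟨x, ⟨n, rfl⟩, hx⟩ := (CompleteLattice.isCompactElement_iff_le_of_directed_sSup_le _ _).1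
    hc (Set.range C) ⟨C 0, 0, rfl⟩ (hC.directed_le.directedOn_range) (by rwa [sSup_range])
  exact ⟨n, hx⟩

end chi

end Pool.Agent.J4H61.RM
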