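import Mathlib

set_option autoImplicit false

/-!
# Generators of stabilizers in actions of free groups
-/

namespace Pool.Agent.J4H61.RM

open Subgroup

variable {X : Type*} [Fintype X] {Ω : Type*} [MulAction (FreeGroup X) Ω]

open Classical in
/-- The edges of the subgraph of the Schreier graph with the vertices `Y`. -/
noncomputable def edg (Y : Finset Ω) : Finset (X × Ω) :=
  ((Finset.univ : Finset X) ×ˢ Y).filter fun p => FreeGroup.of p.1 • p.2 ∈ Y

lemma mem_edg {Y : Finset Ω} {p : X × Ω} :
    p ∈ edg Y ↔ p.2 ∈ Y ∧ FreeGroup.of p.1 • p.2 ∈ Y := by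
  classical
  simp [edg]

/-- A finite connected subgraph with a section `τ` and the generators `S` which come from its
edges. -/
structure Good (ω : Ω) (Y : Finset Ω) (τ : Ω → FreeGroup X) (S : Finset (FreeGroup X)) :
    Prop where
  mem : ω ∈ Y
  base : τ ω = 1
  sec : ∀ y ∈ Y, τ y • ω = y
  stab : ∀ s ∈ S, s • ω = ω
  card : S.card + Y.card ≤ (edg (X := X) Y).card + 1
  gen : ∀ p ∈ edg (X := X) Y,
    (τ (FreeGroup.of p.1 • p.2))⁻¹ * FreeGroup.of p.1 * τ p.2 ∈ closure (S : Set (FreeGroup X))

lemma exists_good (ω : Ω) : ∃ (Y : Finset Ω) (τ : Ω → FreeGroup X) (S : Finset (FreeGroup X)),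
    Good ω Y τ S := by
  classical
  refine ⟨{ω}, fun _ => 1, (edg (X := X) ({ω} : Finset Ω)).image fun p => FreeGroup.of p.1,
    by simp, rfl, ?_, ?_, ?_, ?_⟩
  · intro y hy
    rw [Finset.mem_singleton] at hy
    rw [hy, one_smul]
  · intro s hs
    obtain ⟨p, hp, rfl⟩ := Finset.mem_image.1 hs
    rw [mem_edg, Finset.mem_singleton, Finset.mem_singleton] at hp
    obtain ⟨h1, h2⟩ := hp
    rw [h1] at h2
    exact h2
  · have := Finset.card_image_le (s := edg (X := X) ({ω} : Finset Ω))
      (f := fun p => FreeGroup.of p.1)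
    simp only [Finset.card_singleton]
    omega
  · intro p hp
    rw [inv_one, one_mul, mul_one]
    exact subset_closure (Finset.mem_coe.2 (Finset.mem_image_of_mem _ hp))

lemma Good.step {ω : Ω} {Y : Finset Ω} {τ : Ω → FreeGroup X} {S : Finset (FreeGroup X)}
    (h : Good ω Y τ S) (x : X) (b : Bool) (y : Ω) (hy : y ∈ Y)
    (hz : FreeGroup.mk [(x, b)] • y ∉ Y) :
    ∃ (Y' : Finset Ω) (N : ℕ) (τ' : Ω → FreeGroup X) (S' : Finset (FreeGroup X)),
      Good ω Y' τ' S' ∧ FreeGroup.mk [(x, b)] • y ∈ Y' ∧ Y'.card = Y.card + 1 ∧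
      (edg (X := X) Y').card = (edg (X := X) Y).card + N ∧ 1 ≤ N ∧ (N = 1 → S' = S) ∧
      τ' (FreeGroup.mk [(x, b)] • y) = FreeGroup.mk [(x, b)] * τ y := by
  classical
  set z := FreeGroup.mk [(x, b)] • y with hzdef
  set τ' := Function.update τ z (FreeGroup.mk [(x, b)] * τ y) with hτ'
  have hτz : τ' z = FreeGroup.mk [(x, b)] * τ y := Function.update_self _ _ _
  have hτY : ∀ w ∈ Y, τ' w = τ w := by
    intro w hw
    apply Function.update_of_ne
    rintro rfl
    exact hz hw
  have hsec : ∀ w ∈ insert z Y, τ' w • ω = w := by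
    intro w hw
    rcases Finset.mem_insert.1 hw with rfl | hw
    · rw [hτz, mul_smul, h.sec y hy]
    · rw [hτY w hw, h.sec w hw]
  have hsub : edg (X := X) Y ⊆ edg (insert z Y) := by
    intro p hp
    rw [mem_edg] at hp ⊢
    exact ⟨Finset.mem_insert_of_mem hp.1, Finset.mem_insert_of_mem hp.2⟩
  -- the special edge
  obtain ⟨p0, hp0, hp0', hgen0⟩ : ∃ p0 : X × Ω, p0 ∈ edg (insert z Y) ∧ p0 ∉ edg Y ∧
      (τ' (FreeGroup.of p0.1 • p0.2))⁻¹ * FreeGroup.of p0.1 * τ' p0.2 = 1 := by
    rcases b with _ | _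
    · have hl : (FreeGroup.mk [(x, false)] : FreeGroup X) = (FreeGroup.of x)⁻¹ := rfl
      have h1 : FreeGroup.of x • z = y := by rw [hzdef, hl, smul_inv_smul]
      refine ⟨(x, z), ?_, ?_, ?_⟩
      · rw [mem_edg]
        refine ⟨Finset.mem_insert_self _ _, ?_⟩
        rw [h1]
        exact Finset.mem_insert_of_mem hy
      · rw [mem_edg]
        exact fun h => hz h.1
      · change (τ' (FreeGroup.of x • z))⁻¹ * FreeGroup.of x * τ' z = 1
        rw [h1, hτY y hy, hτz, hl]
        group
    · have hl : (FreeGroup.mk [(x, true)] : FreeGroup X) = FreeGroup.of x := rfl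
      refine ⟨(x, y), ?_, ?_, ?_⟩
      · rw [mem_edg]
        exact ⟨Finset.mem_insert_of_mem hy, Finset.mem_insert_self _ _⟩
      · rw [mem_edg]
        exact fun h => hz h.2
      · change (τ' (FreeGroup.of x • y))⁻¹ * FreeGroup.of x * τ' y = 1
        have h1 : FreeGroup.of x • y = z := rfl
        rw [h1, hτY y hy, hτz, hl]
        group
  set N := edg (X := X) (insert z Y) \ edg Y with hN
  have hp0N : p0 ∈ N := Finset.mem_sdiff.2 ⟨hp0, hp0'⟩
  have hNcard : (edg (X := X) (insert z Y)).card = (edg (X := X) Y).card + N.card := by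
    rw [hN, Finset.card_sdiff_of_subset hsub]
    have := Finset.card_le_card hsub
    omega
  have hN1 : 1 ≤ N.card := Finset.card_pos.2 ⟨p0, hp0N⟩
  let gn : X × Ω → FreeGroup X := fun p =>
    (τ' (FreeGroup.of p.1 • p.2))⁻¹ * FreeGroup.of p.1 * τ' p.2
  refine ⟨insert z Y, N.card, τ', S ∪ (N.erase p0).image gn, ⟨?_, ?_, hsec, ?_, ?_, ?_⟩,
    Finset.mem_insert_self _ _, Finset.card_insert_of_notMem hz, hNcard, hN1, ?_, hτz⟩
  · exact Finset.mem_insert_of_mem h.mem
  · rw [hτY ω h.mem, h.base]
  · intro s hs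
    rcases Finset.mem_union.1 hs with hs | hs
    · exact h.stab s hs
    · obtain ⟨p, hp, rfl⟩ := Finset.mem_image.1 hs
      have hp' := (Finset.mem_sdiff.1 (Finset.mem_of_mem_erase hp)).1
      rw [mem_edg] at hp'
      change ((τ' (FreeGroup.of p.1 • p.2))⁻¹ * FreeGroup.of p.1 * τ' p.2) • ω = ω
      rw [mul_smul, mul_smul, hsec _ hp'.1, inv_smul_eq_iff, hsec _ hp'.2]
  · have h1 : (S ∪ (N.erase p0).image gn).card ≤ S.card + (N.card - 1) := by
      refine (Finset.card_union_le _ _).trans ?_
      have := Finset.card_image_le (s := N.erase p0) (f := gn)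
      rw [Finset.card_erase_of_mem hp0N] at this
      omega
    rw [Finset.card_insert_of_notMem hz, hNcard]
    have := h.card
    omega
  · intro p hp
    by_cases hpY : p ∈ edg Y
    · have h1 := h.gen p hpY
      rw [mem_edg] at hpY
      rw [hτY _ hpY.1, hτY _ hpY.2]
      exact closure_mono (by simp) h1
    · have hpN : p ∈ N := Finset.mem_sdiff.2 ⟨hp, hpY⟩
      by_cases hpp : p = p0
      · rw [hpp, hgen0]
        exact one_mem _
      · apply Subgroup.subset_closure
        apply Finset.mem_coe.2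
        apply Finset.mem_union_right
        exact Finset.mem_image_of_mem gn (Finset.mem_erase.2 ⟨hpp, hpN⟩)
  · intro hN'
    have : N.erase p0 = ∅ := by
      rw [← Finset.card_eq_zero, Finset.card_erase_of_mem hp0N, hN']
    rw [this, Finset.image_empty, Finset.union_empty]

/-- If the Euler characteristic of all finite subgraphs is at least `1 - r` then the stabilizers
are generated by `r` elements. -/
theorem exists_gens (ω : Ω) (r : ℕ)
    (hY : ∀ Y : Finset Ω, Y.Nonempty → (edg (X := X) Y).card + 1 ≤ Y.card + r) :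
    ∃ S : Finset (FreeGroup X), S.card ≤ r ∧
      closure (S : Set (FreeGroup X)) = MulAction.stabilizer (FreeGroup X) ω := by
  classical
  obtain ⟨m, ⟨Y0, τ0, S0, h0, hm0⟩, hmax⟩ : ∃ m : ℤ, (∃ (Y : Finset Ω) (τ : Ω → FreeGroup X)
      (S : Finset (FreeGroup X)), Good ω Y τ S ∧ ((edg (X := X) Y).card : ℤ) - Y.card = m) ∧
      ∀ m', (∃ (Y : Finset Ω) (τ : Ω → FreeGroup X)
      (S : Finset (FreeGroup X)), Good ω Y τ S ∧ ((edg (X := X) Y).card : ℤ) - Y.card = m') →
      m' ≤ m := by
    apply Int.exists_greatest_of_bdd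
    · refine ⟨r, ?_⟩
      rintro m ⟨Y, τ, S, h, rfl⟩
      have := hY Y ⟨ω, h.mem⟩
      have : ((edg (X := X) Y).card : ℤ) + 1 ≤ Y.card + r := by exact_mod_cast this
      linarith
    · obtain ⟨Y, τ, S, h⟩ := exists_good (X := X) ω
      exact ⟨_, Y, τ, S, h, rfl⟩
  refine ⟨S0, ?_, ?_⟩
  · have h1 := hY Y0 ⟨ω, h0.mem⟩
    have h2 := h0.card
    omega
  apply le_antisymm
  · rw [closure_le]
    intro s hs
    exact h0.stab s hs
  · -- all elements
    have key : ∀ L : List (X × Bool), ∃ (Y : Finset Ω) (τ : Ω → FreeGroup X), Good ω Y τ S0 ∧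
        ((edg (X := X) Y).card : ℤ) - Y.card = m ∧ FreeGroup.mk L • ω ∈ Y ∧
        (τ (FreeGroup.mk L • ω))⁻¹ * FreeGroup.mk L ∈ closure (S0 : Set (FreeGroup X)) := by
      intro L
      induction L with
      | nil =>
        refine ⟨Y0, τ0, h0, hm0, ?_, ?_⟩
        · have : (FreeGroup.mk [] : FreeGroup X) = 1 := rfl
          rw [this, one_smul]
          exact h0.mem
        · have : (FreeGroup.mk [] : FreeGroup X) = 1 := rfl
          rw [this, one_smul, h0.base, inv_one, one_mul]
          exact one_mem _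
      | cons a L ih =>
        obtain ⟨x, b⟩ := a
        obtain ⟨Y, τ, h, hm, hy, hg⟩ := ih
        have hmk : (FreeGroup.mk ((x, b) :: L) : FreeGroup X) =
            FreeGroup.mk [(x, b)] * FreeGroup.mk L := by rw [FreeGroup.mul_mk]; rfl
        have hsm : (FreeGroup.mk ((x, b) :: L) : FreeGroup X) • ω =
            FreeGroup.mk [(x, b)] • (FreeGroup.mk L • ω : Ω) := by rw [hmk, mul_smul]
        set y := (FreeGroup.mk L • ω : Ω) with hydef
        by_cases hz : FreeGroup.mk [(x, b)] • y ∈ Y
        · refine ⟨Y, τ, h, hm, by rw [hsm]; exact hz, ?_⟩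
          rw [hsm, hmk]
          have hrel : (τ (FreeGroup.mk [(x, b)] • y))⁻¹ * FreeGroup.mk [(x, b)] * τ y ∈
              closure (S0 : Set (FreeGroup X)) := by
            rcases b with _ | _
            · have hl : (FreeGroup.mk [(x, false)] : FreeGroup X) = (FreeGroup.of x)⁻¹ := rfl
              rw [hl] at hz ⊢
              have h1 := h.gen (x, (FreeGroup.of x)⁻¹ • y) (by
                rw [mem_edg]
                refine ⟨hz, ?_⟩
                change FreeGroup.of x • (FreeGroup.of x)⁻¹ • y ∈ Y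
                rw [smul_inv_smul]
                exact hy)
              change (τ (FreeGroup.of x • (FreeGroup.of x)⁻¹ • y))⁻¹ * FreeGroup.of x *
                τ ((FreeGroup.of x)⁻¹ • y) ∈ _ at h1
              rw [smul_inv_smul] at h1
              have h2 := inv_mem h1
              convert h2 using 1
              group
            · have hl : (FreeGroup.mk [(x, true)] : FreeGroup X) = FreeGroup.of x := rfl
              rw [hl] at hz ⊢
              exact h.gen (x, y) (by rw [mem_edg]; exact ⟨hy, hz⟩)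
          have h2 := mul_mem hrel hg
          convert h2 using 1
          group
        · obtain ⟨Y', N, τ', S', hG, hzY', hc, he, hN1, hS', hτz⟩ := h.step x b y hy hz
          have h3 : ((edg (X := X) Y').card : ℤ) - Y'.card ≤ m := hmax _ ⟨Y', τ', S', hG, rfl⟩
          have h4 : ((edg (X := X) Y').card : ℤ) = (edg (X := X) Y).card + N := by
            exact_mod_cast he
          have h5 : (Y'.card : ℤ) = Y.card + 1 := by exact_mod_cast hc
          have hN : N = 1 := by omega
          have hSS := hS' hN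
          subst hSS
          refine ⟨Y', τ', hG, by omega, by rw [hsm]; exact hzY', ?_⟩
          rw [hsm, hτz, hmk]
          convert hg using 1
          group
    intro g hg
    obtain ⟨Y, τ, h, -, hy, hmem⟩ := key g.toWord
    rw [FreeGroup.mk_toWord] at hmem
    have hgω : g • ω = ω := hg
    rw [hgω, h.base, inv_one, one_mul] at hmem
    exact hmem

end Pool.Agent.J4H61.RM
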