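import Pool.Agent.J4H61.RM.FreePos
import Pool.Agent.J4H61.RM.Gen

set_option autoImplicit false

/-!
# Permutation modules of free groups: the lower bound `1 - r` for the Euler characteristic
-/

namespace Pool.Agent.J4H61.RM

open Module Submodule

section stable

variable {K : Type*} [Field K] {X : Type*} {Ω : Type*} [MulAction (FreeGroup X) Ω]

/-- A subspace which is stable under the generators and their inverses is stable under the
group. -/
lemma act_mem_of_stable {U : Submodule K (Ω →₀ K)}
    (h1 : ∀ x, U.map (opp K X Ω x : (Ω →₀ K) →ₗ[K] (Ω →₀ K)) ≤ U)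
    (h2 : ∀ x, U.map ((opp K X Ω x).symm : (Ω →₀ K) →ₗ[K] (Ω →₀ K)) ≤ U)
    (g : FreeGroup X) (v : Ω →₀ K) (hv : v ∈ U) : act K Ω g v ∈ U := by
  induction g using FreeGroup.induction_on generalizing v with
  | C1 => rwa [act_one]
  | of x => exact h1 x ⟨v, hv, rfl⟩
  | inv_of x _ =>
    rw [← act_symm]
    exact h2 x ⟨v, hv, rfl⟩
  | mul g h hg hh =>
    rw [act_mul]
    exact hg _ (hh _ hv)

end stable

section coset

variable {K : Type*} [Field K] {X : Type*} [Fintype X] (H : Subgroup (FreeGroup X))

variable (K) in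
/-- The projection `K[F] → K[F/H]`. -/
noncomputable def toCoset : (FreeGroup X →₀ K) →ₗ[K] ((FreeGroup X ⧸ H) →₀ K) :=
  Finsupp.lmapDomain K K (QuotientGroup.mk : FreeGroup X → FreeGroup X ⧸ H)

lemma toCoset_single (g : FreeGroup X) (c : K) :
    toCoset K H (Finsupp.single g c) = Finsupp.single (g : FreeGroup X ⧸ H) c := by
  simp [toCoset]

lemma toCoset_equi :
    Equi (opp K X (FreeGroup X)) (opp K X (FreeGroup X ⧸ H)) (toCoset K H) := by
  intro x v
  have : (toCoset K H) ∘ₗ (opp K X (FreeGroup X) x : _ →ₗ[K] _) =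
      (opp K X (FreeGroup X ⧸ H) x : _ →ₗ[K] _) ∘ₗ (toCoset K H) := by
    refine Finsupp.lhom_ext fun g c => ?_
    change toCoset K H (act K _ (FreeGroup.of x) (Finsupp.single g c)) =
      act K _ (FreeGroup.of x) (toCoset K H (Finsupp.single g c))
    rw [act_single, toCoset_single, toCoset_single, act_single]
    rfl
  exact LinearMap.congr_fun this v

lemma toCoset_surjective : Function.Surjective (toCoset K H) := by
  intro v
  induction v using Finsupp.induction_linear with
  | zero => exact ⟨0, map_zero _⟩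
  | add v w hv hw =>
    obtain ⟨a, rfl⟩ := hv
    obtain ⟨b, rfl⟩ := hw
    exact ⟨a + b, map_add _ _ _⟩
  | single γ c =>
    obtain ⟨g, rfl⟩ := QuotientGroup.mk_surjective γ
    exact ⟨Finsupp.single g c, toCoset_single H g c⟩

/-- A stable subspace which contains `s - 1` for all `s` in a generating set of `H` contains the
kernel of `K[F] → K[F/H]`. -/
lemma ker_le_of_gens {S : Set (FreeGroup X)} (hS : Subgroup.closure S = H)
    {U : Submodule K (FreeGroup X →₀ K)}
    (h1 : ∀ x, U.map (opp K X (FreeGroup X) x : _ →ₗ[K] _) ≤ U)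
    (h2 : ∀ x, U.map ((opp K X (FreeGroup X) x).symm : _ →ₗ[K] _) ≤ U)
    (h : ∀ s ∈ S, Finsupp.single s 1 - Finsupp.single 1 1 ∈ U) :
    LinearMap.ker (toCoset K H) ≤ U := by
  classical
  have hact := act_mem_of_stable (K := K) (Ω := FreeGroup X) h1 h2
  have hH : ∀ g ∈ H, (Finsupp.single g 1 - Finsupp.single 1 1 : FreeGroup X →₀ K) ∈ U := by
    intro g hg
    rw [← hS] at hg
    induction hg using Subgroup.closure_induction with
    | mem g hg => exact h g hg
    | one => rw [sub_self]; exact zero_mem _
    | mul a b _ _ ha hb =>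
      have h3 := U.add_mem (hact a _ hb) ha
      rw [map_sub, act_single, act_single, smul_eq_mul, smul_eq_mul, mul_one,
        sub_add_sub_cancel] at h3
      exact h3
    | inv a _ ha =>
      have h3 := U.neg_mem (hact a⁻¹ _ ha)
      rw [map_sub, act_single, act_single, smul_eq_mul, smul_eq_mul, mul_one, inv_mul_cancel,
        neg_sub] at h3
      exact h3
  have hgh : ∀ g g' : FreeGroup X, (g : FreeGroup X ⧸ H) = g' → ∀ c : K,
      Finsupp.single g c - Finsupp.single g' c ∈ U := by
    intro g g' hgg c
    have h3 : g'⁻¹ * g ∈ H := QuotientGroup.eq.1 hgg.symm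
    have h4 := U.smul_mem c (hact g' _ (hH _ h3))
    rw [map_sub, act_single, act_single, smul_eq_mul, smul_eq_mul, mul_one, mul_inv_cancel_left,
      smul_sub, Finsupp.smul_single_one, Finsupp.smul_single_one] at h4
    exact h4
  intro v hv
  have hv0 : toCoset K H v = 0 := hv
  -- the representatives
  let o : FreeGroup X → FreeGroup X := fun g => (g : FreeGroup X ⧸ H).out
  have ho : ∀ g : FreeGroup X, (g : FreeGroup X ⧸ H) = ((o g : FreeGroup X) : FreeGroup X ⧸ H) :=
    fun g => (QuotientGroup.out_eq' (g : FreeGroup X ⧸ H)).symm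
  have h5 : ∀ w : FreeGroup X →₀ K, w - Finsupp.lmapDomain K K o w ∈ U := by
    intro w
    induction w using Finsupp.induction_linear with
    | zero => rw [map_zero, sub_zero]; exact zero_mem _
    | add a b ha hb =>
      rw [map_add, add_sub_add_comm]
      exact U.add_mem ha hb
    | single g c =>
      rw [Finsupp.lmapDomain_apply, Finsupp.mapDomain_single]
      exact hgh _ _ (ho g) c
  have h6 : Finsupp.lmapDomain K K o v = 0 := by
    have : Finsupp.lmapDomain K K o v =
        Finsupp.lmapDomain K K (Quotient.out : FreeGroup X ⧸ H → FreeGroup X)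
          (toCoset K H v) := by
      rw [toCoset, Finsupp.lmapDomain_apply, Finsupp.lmapDomain_apply, Finsupp.lmapDomain_apply,
        ← Finsupp.mapDomain_comp]
      rfl
    rw [this, hv0, map_zero]
  have := h5 v
  rwa [h6, sub_zero] at this

/-- If `H` is generated by `r` elements then the nonzero subspaces of `K[F/H]` have Euler
characteristic at least `1 - r`. -/
theorem chi_coset_ge (S : Finset (FreeGroup X)) (hS : Subgroup.closure (S : Set (FreeGroup X)) = H)
    (E : Submodule K ((FreeGroup X ⧸ H) →₀ K)) [FiniteDimensional K E] (h0 : E ≠ ⊥) :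
    1 - (S.card : ℤ) ≤ chi (opp K X (FreeGroup X ⧸ H)) E := by
  classical
  set E0 : Submodule K (FreeGroup X →₀ K) :=
    span K ((S.image fun s => (Finsupp.single s 1 - Finsupp.single 1 1 : FreeGroup X →₀ K) :
      Finset (FreeGroup X →₀ K)) : Set (FreeGroup X →₀ K)) with hE0
  have hE0f : FiniteDimensional K E0 := FiniteDimensional.span_finset K _
  have hE0r : finrank K E0 ≤ S.card :=
    (finrank_span_finset_le_card _).trans Finset.card_image_le
  obtain ⟨C, hC0, hmono, hCf, hchi, hstep, hleast⟩ := exists_chain (opp K X (FreeGroup X)) E0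
  have hkst : ∀ x, (LinearMap.ker (toCoset K H)).map (opp K X (FreeGroup X) x : _ →ₗ[K] _) ≤
      LinearMap.ker (toCoset K H) ∧
      (LinearMap.ker (toCoset K H)).map ((opp K X (FreeGroup X) x).symm : _ →ₗ[K] _) ≤
      LinearMap.ker (toCoset K H) := by
    intro x
    constructor
    · rintro _ ⟨v, hv, rfl⟩
      change toCoset K H (opp K X (FreeGroup X) x v) = 0
      rw [toCoset_equi, LinearMap.mem_ker.1 hv, map_zero]
    · rintro _ ⟨v, hv, rfl⟩
      change toCoset K H ((opp K X (FreeGroup X) x).symm v) = 0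
      apply (opp K X (FreeGroup X ⧸ H) x).injective
      rw [← toCoset_equi, LinearEquiv.apply_symm_apply, LinearMap.mem_ker.1 hv, map_zero]
  have hE0k : E0 ≤ LinearMap.ker (toCoset K H) := by
    rw [hE0, span_le]
    intro v hv
    obtain ⟨s, hs, rfl⟩ := Finset.mem_image.1 (Finset.mem_coe.1 hv)
    change toCoset K H (Finsupp.single s 1 - Finsupp.single 1 1) = 0
    rw [map_sub, toCoset_single, toCoset_single, sub_eq_zero]
    congr 1
    rw [QuotientGroup.eq]
    have : s ∈ H := hS ▸ Subgroup.subset_closure hs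
    simpa using H.inv_mem this
  have hCk : ∀ n, C n ≤ LinearMap.ker (toCoset K H) := hleast _ hE0k hkst
  have hkC : LinearMap.ker (toCoset K H) ≤ ⨆ n, C n := by
    apply ker_le_of_gens H hS
    · intro x
      rw [Submodule.map_iSup]
      exact iSup_le fun n => (hstep n x).1.trans (le_iSup C (n + 1))
    · intro x
      rw [Submodule.map_iSup]
      exact iSup_le fun n => (hstep n x).2.trans (le_iSup C (n + 1))
    · intro s hs
      apply (le_iSup C 0)
      rw [hC0]
      exact subset_span (Finset.mem_coe.2 (Finset.mem_image_of_mem _ hs))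
  obtain ⟨E1, hE1f, hE1, -, hE1c⟩ := lift_le (opp K X (FreeGroup X)) (opp K X (FreeGroup X ⧸ H))
    (toCoset_equi H) E (by rw [LinearMap.range_eq_top.2 (toCoset_surjective H)]; exact le_top) ⊥
    bot_le (S.card : ℤ) (by
      intro F hF hFf
      obtain ⟨n, hn⟩ := exists_ge_chain C hmono F (hF.trans hkC)
      refine ⟨C n, hCk n, hn, hCf n, (hchi n).trans ((chi_le_finrank _ _).trans ?_)⟩
      exact_mod_cast hE0r)
  have h1 : E1 ≠ ⊥ := by
    rintro rfl
    apply h0
    rw [← hE1, Submodule.map_bot]
  have := posOn_free (K := K) (X := X) E1 le_top hE1f h1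
  linarith

end coset

end Pool.Agent.J4H61.RM
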