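import Pool.Agent.J4H61.RM.Coset
import Pool.Agent.J4H61.RM.Aug

set_option autoImplicit false

/-!
# The action of the group algebra on a permutation module
-/

namespace Pool.Agent.J4H61.RM

open Module Submodule

section dot

variable {K : Type*} [Field K] {X : Type*} {Ω : Type*} [MulAction (FreeGroup X) Ω]

/-- The product of an element of the group algebra and an element of the permutation module. -/
noncomputable def dot : (FreeGroup X →₀ K) →ₗ[K] (Ω →₀ K) →ₗ[K] (Ω →₀ K) :=
  Finsupp.linearCombination K fun g => (act K Ω g : (Ω →₀ K) →ₗ[K] (Ω →₀ K))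

lemma dot_single (g : FreeGroup X) (c : K) (v : Ω →₀ K) :
    dot (Finsupp.single g c) v = c • act K Ω g v := by
  rw [dot, Finsupp.linearCombination_single]
  rfl

lemma dot_single_single (g : FreeGroup X) (c : K) (γ : Ω) (c' : K) :
    dot (Finsupp.single g c) (Finsupp.single γ c') = Finsupp.single (g • γ) (c * c') := by
  rw [dot_single, act_single, Finsupp.smul_single, smul_eq_mul]

lemma dot_apply (b : FreeGroup X →₀ K) (v : Ω →₀ K) (ω : Ω) :
    dot b v ω = b.sum fun g c => c * v (g⁻¹ • ω) := by
  rw [dot, Finsupp.linearCombination_apply, Finsupp.sum, LinearMap.sum_apply,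
    Finsupp.finsetSum_apply]
  rfl

lemma exists_of_dot_ne_zero {b : FreeGroup X →₀ K} {v : Ω →₀ K} {ω : Ω} (h : dot b v ω ≠ 0) :
    ∃ g ∈ b.support, ∃ γ ∈ v.support, ω = g • γ := by
  rw [dot_apply] at h
  obtain ⟨g, hg, hne⟩ := Finset.exists_ne_zero_of_sum_ne_zero h
  refine ⟨g, hg, g⁻¹ • ω, ?_, by rw [smul_inv_smul]⟩
  rw [Finsupp.mem_support_iff]
  exact right_ne_zero_of_mul hne

/-- Torsion-freeness of the augmentation submodule. -/
theorem dot_ne_zero [Fintype X]
    (hpos : PosOn (opp K X Ω) (LinearMap.ker (aug K Ω))) (s : Ω →₀ K) (hs : aug K Ω s = 0)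
    (hs0 : s ≠ 0) (b : FreeGroup X →₀ K) (hb : b ≠ 0) : dot b s ≠ 0 := by
  classical
  intro hbs
  let φ : (FreeGroup X →₀ K) →ₗ[K] (Ω →₀ K) := dot.flip s
  have hφs : ∀ b, φ b = dot b s := fun b => rfl
  have hφ : Equi (opp K X (FreeGroup X)) (opp K X Ω) φ := by
    intro x v
    have : φ ∘ₗ (opp K X (FreeGroup X) x : _ →ₗ[K] _) =
        (opp K X Ω x : _ →ₗ[K] _) ∘ₗ φ := by
      refine Finsupp.lhom_ext fun g c => ?_
      change dot (act K _ (FreeGroup.of x) (Finsupp.single g c)) s =
        act K _ (FreeGroup.of x) (dot (Finsupp.single g c) s)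
      rw [act_single, dot_single, dot_single, smul_eq_mul, map_smul, act_mul]
    exact LinearMap.congr_fun this v
  have hQ : ∀ b, aug K Ω (φ b) = 0 := by
    intro b
    induction b using Finsupp.induction_linear with
    | zero => rw [map_zero, map_zero]
    | add a b ha hb => rw [map_add, map_add, ha, hb, add_zero]
    | single g c => rw [hφs, dot_single, map_smul, aug_act, hs, smul_zero]
  set E0 : Submodule K (FreeGroup X →₀ K) := span K {Finsupp.single 1 1} with hE0
  obtain ⟨C, hC0, hmono, hCf, hchi, hstep, hleast⟩ := exists_chain (opp K X (FreeGroup X)) E0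
  have htop : ∀ v : FreeGroup X →₀ K, v ∈ ⨆ n, C n := by
    have hact := act_mem_of_stable (K := K) (X := X) (Ω := FreeGroup X) (U := ⨆ n, C n)
      (fun x => by
        rw [Submodule.map_iSup]
        exact iSup_le fun n => (hstep n x).1.trans (le_iSup C (n + 1)))
      (fun x => by
        rw [Submodule.map_iSup]
        exact iSup_le fun n => (hstep n x).2.trans (le_iSup C (n + 1)))
    have h1 : (Finsupp.single 1 1 : FreeGroup X →₀ K) ∈ ⨆ n, C n := by
      apply le_iSup C 0
      rw [hC0]
      exact mem_span_singleton_self _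
    intro v
    induction v using Finsupp.induction_linear with
    | zero => exact zero_mem _
    | add a b ha hb => exact add_mem ha hb
    | single g c =>
      have h2 := Submodule.smul_mem _ c (hact g _ h1)
      rwa [act_single, smul_eq_mul, mul_one, Finsupp.smul_single_one] at h2
  obtain ⟨n, hn⟩ := exists_ge_chain C hmono (span K {b}) (fun v _ => htop v)
  have hbn : b ∈ C n := hn (mem_span_singleton_self b)
  have h1n : (Finsupp.single 1 1 : FreeGroup X →₀ K) ∈ C n := by
    apply hmono (Nat.zero_le n)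
    rw [hC0]
    exact mem_span_singleton_self _
  have hCfn := hCf n
  have h1 := chi_hom (opp K X (FreeGroup X)) (opp K X Ω) hφ (C n)
  have h2 : 1 ≤ chi (opp K X Ω) ((C n).map φ) := by
    refine hpos _ ?_ inferInstance ?_
    · rintro _ ⟨v, _, rfl⟩
      exact hQ v
    · intro h
      have h3 : φ (Finsupp.single 1 1) ∈ (C n).map φ := Submodule.mem_map_of_mem h1n
      rw [h, hφs, dot_single, act_one, one_smul] at h3
      exact hs0 h3
  have h3 : 1 ≤ chi (opp K X (FreeGroup X)) (C n ⊓ LinearMap.ker φ) := by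
    refine posOn_free _ le_top (Submodule.finiteDimensional_of_le inf_le_left) ?_
    intro h
    have h4 : b ∈ C n ⊓ LinearMap.ker φ := ⟨hbn, hbs⟩
    rw [h] at h4
    exact hb h4
  have h4 : chi (opp K X (FreeGroup X)) (C n) ≤ 1 := by
    refine (hchi n).trans ((chi_le_finrank _ _).trans ?_)
    have : finrank K E0 ≤ 1 := by
      rw [hE0, finrank_span_singleton (by simp)]
    exact_mod_cast this
  linarith

end dot

end Pool.Agent.J4H61.RM
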