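import Pool.Agent.J4H61.RM.Quot

set_option autoImplicit false

/-!
# Positivity of the free module
-/

namespace Pool.Agent.J4H61.RM

open Module Submodule

section norm

variable {X : Type*} [DecidableEq X]

lemma norm_letter (g : FreeGroup X) (x : X) (b : Bool)
    (h : (FreeGroup.mk [(x, b)] * g).norm ≤ g.norm) : g.toWord.head? = some (x, !b) := by
  have h1 : (FreeGroup.mk [(x, b)] * g).toWord = FreeGroup.reduce ((x, b) :: g.toWord) := by
    conv_lhs => rw [← FreeGroup.mk_toWord (x := g), FreeGroup.mul_mk, FreeGroup.toWord_mk]
    rfl
  rw [FreeGroup.norm, h1, FreeGroup.reduce.cons, FreeGroup.reduce_toWord, FreeGroup.norm] at h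
  cases hg : g.toWord with
  | nil => rw [hg] at h; simp at h
  | cons hd tl =>
    rw [hg] at h
    dsimp only at h
    split_ifs at h with hc
    · obtain ⟨h1, h2⟩ := hc
      obtain ⟨a, c⟩ := hd
      simp only at h1 h2
      subst h1
      rw [h2, Bool.not_not]
      rfl
    · simp at h

lemma letter_unique (g : FreeGroup X) (x y : X) (b c : Bool)
    (h : (FreeGroup.mk [(x, b)] * g).norm ≤ g.norm)
    (h' : (FreeGroup.mk [(y, c)] * g).norm ≤ g.norm) : x = y ∧ b = c := by
  have h1 := norm_letter g x b h
  have h2 := norm_letter g y c h'
  rw [h1] at h2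
  simpa using h2

end norm

section act

variable {K : Type*} [Field K] {X : Type*} {Ω : Type*} [MulAction (FreeGroup X) Ω]

variable (K Ω) in
/-- The action of `g` on the permutation module of `Ω`. -/
noncomputable def act (g : FreeGroup X) : (Ω →₀ K) ≃ₗ[K] (Ω →₀ K) :=
  Finsupp.domLCongr (MulAction.toPerm g)

lemma act_apply (g : FreeGroup X) (v : Ω →₀ K) (ω : Ω) : act K Ω g v ω = v (g⁻¹ • ω) := rfl

lemma act_single (g : FreeGroup X) (ω : Ω) (c : K) :
    act K Ω g (Finsupp.single ω c) = Finsupp.single (g • ω) c := by
  simp [act]

lemma act_mul (g h : FreeGroup X) (v : Ω →₀ K) : act K Ω (g * h) v = act K Ω g (act K Ω h v) := by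
  ext ω
  simp [act_apply, mul_smul]

lemma act_one (v : Ω →₀ K) : act K Ω (1 : FreeGroup X) v = v := by
  ext ω
  simp [act_apply]

lemma act_symm (g : FreeGroup X) (v : Ω →₀ K) : (act K Ω g).symm v = act K Ω g⁻¹ v := by
  rw [LinearEquiv.symm_apply_eq, ← act_mul, mul_inv_cancel, act_one]

variable (K X Ω) in
/-- The operators of the generators. -/
noncomputable def opp (x : X) : (Ω →₀ K) ≃ₗ[K] (Ω →₀ K) := act K Ω (FreeGroup.of x)

end act

section pos

variable {K : Type*} [Field K] {X : Type*} [Fintype X]

/-- The free module of rank one is positive. -/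
theorem posOn_free : PosOn (opp K X (FreeGroup X)) (⊤ : Submodule K (FreeGroup X →₀ K)) := by
  classical
  have key : ∀ (n : ℕ) (E : Submodule K (FreeGroup X →₀ K)), FiniteDimensional K E →
      finrank K E = n → E ≠ ⊥ → 1 ≤ chi (opp K X (FreeGroup X)) E := by
    intro n
    induction n using Nat.strong_induction_on with
    | _ n ih =>
    intro E hEf hn h0
    -- the support
    set P : Set (FreeGroup X) := {g | ∃ e ∈ E, e g ≠ 0} with hP
    have hPfin : P.Finite := by
      obtain ⟨s, hs⟩ := (Submodule.fg_iff_finiteDimensional E).2 hEf
      apply (s.biUnion fun e => e.support).finite_toSet.subset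
      rintro g ⟨e, he, heg⟩
      by_contra hcon
      apply heg
      have hz : ∀ e ∈ s, e g = 0 := by
        intro e he
        by_contra h
        apply hcon
        simp only [Finset.coe_biUnion, Set.mem_iUnion]
        exact ⟨e, he, by simpa using h⟩
      have : E ≤ LinearMap.ker (Finsupp.lapply (R := K) g) := by
        rw [← hs, Submodule.span_le]
        intro e he
        exact hz e he
      exact this he
    have hPne : P.Nonempty := by
      obtain ⟨e, he, he0⟩ := Submodule.exists_mem_ne_zero_of_ne_bot h0
      obtain ⟨g, hg⟩ := Finsupp.ne_iff.1 he0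
      exact ⟨g, e, he, by simpa using hg⟩
    obtain ⟨g, ⟨e0, he0, he0g⟩, hmax⟩ := Set.exists_max_image P FreeGroup.norm hPfin hPne
    set ℓ : (FreeGroup X →₀ K) →ₗ[K] K := Finsupp.lapply g with hℓ
    set E' := E ⊓ LinearMap.ker ℓ with hE'
    have hE'f : FiniteDimensional K E' := Submodule.finiteDimensional_of_le inf_le_left
    have hrk := finrank_map_add ℓ E
    rw [← hE'] at hrk
    have hle1 : ∀ F : Submodule K K, finrank K F ≤ 1 := fun F => by
      simpa using Submodule.finrank_le F
    have hmap : finrank K (E.map ℓ) = 1 := by
      refine le_antisymm (hle1 _) ?_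
      rw [Nat.one_le_iff_ne_zero]
      intro h
      have : E.map ℓ = ⊥ := Submodule.finrank_eq_zero.1 h
      have h2 : ℓ e0 ∈ E.map ℓ := Submodule.mem_map_of_mem he0
      rw [this] at h2
      exact he0g h2
    have hplus : ∀ x, ∀ e ∈ ed (opp K X (FreeGroup X) x) E E, e g ≠ 0 →
        (FreeGroup.mk [(x, true)] * g).norm ≤ g.norm := by
      intro x e he heg
      apply hmax
      refine ⟨_, he.2, ?_⟩
      change act K (FreeGroup X) (FreeGroup.of x) e (FreeGroup.of x * g) ≠ 0
      rw [act_apply, smul_eq_mul, inv_mul_cancel_left]
      exact heg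
    have hminus : ∀ x, ∀ e ∈ ed (opp K X (FreeGroup X) x) E E, opp K X (FreeGroup X) x e g ≠ 0 →
        (FreeGroup.mk [(x, false)] * g).norm ≤ g.norm := by
      intro x e he heg
      apply hmax
      refine ⟨e, he.1, ?_⟩
      exact heg
    have hB : ∀ x, ed (opp K X (FreeGroup X) x) E' E' = ed (opp K X (FreeGroup X) x) E E ⊓
        (LinearMap.ker ℓ ⊓ (LinearMap.ker ℓ).comap (opp K X (FreeGroup X) x : _ →ₗ[K] _)) := by
      intro x
      ext e
      simp only [mem_ed, hE', mem_inf, mem_comap]
      tauto
    have hlt : finrank K E' < n := by omega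
    -- `A x = B x` if no letter `(x, b)` is active
    have hAB : ∀ x, (∀ b, ¬ (FreeGroup.mk [(x, b)] * g).norm ≤ g.norm) →
        ed (opp K X (FreeGroup X) x) E' E' = ed (opp K X (FreeGroup X) x) E E := by
      intro x hx
      rw [hB]
      refine inf_eq_left.2 fun e he => ⟨?_, ?_⟩
      · by_contra h
        exact hx true (hplus x e he h)
      · by_contra h
        exact hx false (hminus x e he h)
    by_cases hbot : E' = ⊥
    · -- dimension one
      have hz : ∀ x, finrank K (ed (opp K X (FreeGroup X) x) E E) = 0 := by
        intro x
        rw [Submodule.finrank_eq_zero, eq_bot_iff]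
        intro e he
        by_contra hne
        have hne' : e ≠ 0 := hne
        have h1 : e g ≠ 0 := by
          intro h
          have : e ∈ E' := ⟨he.1, h⟩
          rw [hbot] at this
          exact hne' this
        have h2 : opp K X (FreeGroup X) x e g ≠ 0 := by
          intro h
          have : opp K X (FreeGroup X) x e ∈ E' := ⟨he.2, h⟩
          rw [hbot, Submodule.mem_bot, LinearEquiv.map_eq_zero_iff] at this
          exact hne' this
        have := letter_unique g x x true false (hplus x e he h1) (hminus x e he h2)
        exact absurd this.2 (by decide)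
      have h1 : finrank K E = 1 := by
        have : finrank K E' = 0 := by rw [hbot, finrank_bot]
        omega
      unfold chi
      simp [hz, h1]
    · have hih := ih _ hlt E' hE'f rfl hbot
      refine hih.trans ?_
      -- at most one generator has `A x ≠ B x`, and the codimension is at most one
      have hsum : ∑ x, (finrank K (ed (opp K X (FreeGroup X) x) E E) : ℤ) ≤
          ∑ x, (finrank K (ed (opp K X (FreeGroup X) x) E' E') : ℤ) + 1 := by
        by_cases hact : ∃ x b, (FreeGroup.mk [(x, b)] * g).norm ≤ g.norm
        · obtain ⟨x, b, hxb⟩ := hact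
          have hcod : finrank K (ed (opp K X (FreeGroup X) x) E E) ≤
              finrank K (ed (opp K X (FreeGroup X) x) E' E') + 1 := by
            set A := ed (opp K X (FreeGroup X) x) E E with hA
            obtain ⟨f, hf⟩ : ∃ f : (FreeGroup X →₀ K) →ₗ[K] K,
                A ⊓ LinearMap.ker f ≤ ed (opp K X (FreeGroup X) x) E' E' := by
              rcases b with _ | _
              · refine ⟨ℓ ∘ₗ (opp K X (FreeGroup X) x : _ →ₗ[K] _), ?_⟩
                rw [hB]
                rintro e ⟨he, hk⟩
                refine ⟨he, ?_, hk⟩
                by_contra h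
                have := letter_unique g x x true false (hplus x e he h) hxb
                exact absurd this.2 (by decide)
              · refine ⟨ℓ, ?_⟩
                rw [hB]
                rintro e ⟨he, hk⟩
                refine ⟨he, hk, ?_⟩
                by_contra h
                have := letter_unique g x x true false hxb (hminus x e he h)
                exact absurd this.2 (by decide)
            have h1 := finrank_map_add f A
            have h2 := Submodule.finrank_mono hf
            have h3 := hle1 (A.map f)
            omega
          rw [← Finset.add_sum_erase _ _ (Finset.mem_univ x),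
            ← Finset.add_sum_erase _
              (fun y => (finrank K (ed (opp K X (FreeGroup X) y) E' E') : ℤ)) (Finset.mem_univ x)]
          have : ∑ y ∈ Finset.univ.erase x, (finrank K (ed (opp K X (FreeGroup X) y) E E) : ℤ) =
              ∑ y ∈ Finset.univ.erase x, (finrank K (ed (opp K X (FreeGroup X) y) E' E') : ℤ) := by
            refine Finset.sum_congr rfl fun y hy => ?_
            rw [hAB y]
            intro c hc
            exact (Finset.ne_of_mem_erase hy) (letter_unique g y x c b hc hxb).1
          have h2 : (finrank K (ed (opp K X (FreeGroup X) x) E E) : ℤ) ≤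
              finrank K (ed (opp K X (FreeGroup X) x) E' E') + 1 := by exact_mod_cast hcod
          linarith
        · push Not at hact
          have : ∀ x, finrank K (ed (opp K X (FreeGroup X) x) E E) =
              finrank K (ed (opp K X (FreeGroup X) x) E' E') := fun x => by
            rw [hAB x fun b => not_le.2 (hact x b)]
          simp [this]
      have h5 : (finrank K E : ℤ) = 1 + finrank K E' := by
        have : finrank K E = 1 + finrank K E' := by omega
        exact_mod_cast this
      unfold chi
      linarith
  intro E _ hEf h0
  exact key _ E hEf rfl h0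

end pos

end Pool.Agent.J4H61.RM
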