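import Pool.Agent.J4H61.RM.Main

set_option autoImplicit false

/-!
# The right ideal of a subgroup
-/

namespace Pool.Agent.J4H61.RM

open Module Submodule

section ideal

variable (K : Type*) [Field K] {G : Type*} [Group G]

/-- The right ideal `J_H` of the group algebra `K[G]` generated by the elements `h - 1`, `h ∈ H`
(right ideals are the submodules of `K[G]` over the opposite algebra). -/
noncomputable def J (H : Subgroup G) : Submodule (MonoidAlgebra K G)ᵐᵒᵖ (MonoidAlgebra K G) :=
  Submodule.span (MonoidAlgebra K G)ᵐᵒᵖ {a | ∃ h ∈ H, a = MonoidAlgebra.single h 1 - 1}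

end ideal

section free

variable {K : Type*} [Field K] {X : Type*} (H : Subgroup (FreeGroup X))

/-- The map `K[F] → K[F/H]`, `g ↦ g⁻¹ H`. -/
noncomputable def pr (a : MonoidAlgebra K (FreeGroup X)) : (FreeGroup X ⧸ H) →₀ K :=
  Finsupp.mapDomain (fun g => ((g⁻¹ : FreeGroup X) : FreeGroup X ⧸ H)) a.coeff

lemma pr_add (a b : MonoidAlgebra K (FreeGroup X)) : pr H (a + b) = pr H a + pr H b := by
  rw [pr, MonoidAlgebra.coeff_add, Finsupp.mapDomain_add]
  rfl

lemma pr_zero : pr H (0 : MonoidAlgebra K (FreeGroup X)) = 0 := by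
  rw [pr, MonoidAlgebra.coeff_zero, Finsupp.mapDomain_zero]

lemma pr_single (g : FreeGroup X) (c : K) :
    pr H (MonoidAlgebra.single g c) =
      Finsupp.single ((g⁻¹ : FreeGroup X) : FreeGroup X ⧸ H) c := by
  rw [pr, MonoidAlgebra.coeff_single, Finsupp.mapDomain_single]

lemma pr_one : pr H (1 : MonoidAlgebra K (FreeGroup X)) =
    Finsupp.single ((1 : FreeGroup X) : FreeGroup X ⧸ H) 1 := by
  rw [MonoidAlgebra.one_def, pr_single, inv_one]

lemma pr_sub (a b : MonoidAlgebra K (FreeGroup X)) : pr H (a - b) = pr H a - pr H b := by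
  rw [eq_sub_iff_add_eq, ← pr_add, sub_add_cancel]

/-- The inverted element. -/
noncomputable def inve (a : MonoidAlgebra K (FreeGroup X)) : FreeGroup X →₀ K :=
  Finsupp.mapDomain (fun g => g⁻¹) a.coeff

lemma pr_mul (a a' : MonoidAlgebra K (FreeGroup X)) : pr H (a * a') = dot (inve a') (pr H a) := by
  induction a using MonoidAlgebra.induction_linear with
  | zero => rw [zero_mul, pr_zero, map_zero]
  | add a b ha hb => rw [add_mul, pr_add, ha, hb, pr_add, map_add]
  | single g c =>
    induction a' using MonoidAlgebra.induction_linear with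
    | zero => rw [mul_zero, pr_zero, inve, MonoidAlgebra.coeff_zero, Finsupp.mapDomain_zero,
        map_zero, LinearMap.zero_apply]
    | add a b ha hb =>
      rw [mul_add, pr_add, ha, hb, inve, inve, inve, MonoidAlgebra.coeff_add,
        Finsupp.mapDomain_add, map_add, LinearMap.add_apply]
    | single g' c' =>
      rw [MonoidAlgebra.single_mul_single, pr_single, pr_single, inve, MonoidAlgebra.coeff_single,
        Finsupp.mapDomain_single, dot_single_single, mul_comm c' c, mul_inv_rev]
      rfl

lemma mem_J_iff (a : MonoidAlgebra K (FreeGroup X)) : a ∈ J K H ↔ pr H a = 0 := by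
  constructor
  · intro ha
    induction ha using Submodule.span_induction with
    | mem a ha =>
      obtain ⟨h, hh, rfl⟩ := ha
      rw [pr_sub, pr_single, pr_one, sub_eq_zero]
      congr 1
      exact QuotientGroup.eq.2 (by simpa using hh)
    | zero => exact pr_zero H
    | add a b _ _ ha hb => rw [pr_add, ha, hb, add_zero]
    | smul c a _ ha =>
      rw [← MulOpposite.op_unop c, op_smul_eq_mul, pr_mul, ha, map_zero]
  · intro ha
    -- representatives
    let o : FreeGroup X → FreeGroup X := fun g =>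
      (((g⁻¹ : FreeGroup X) : FreeGroup X ⧸ H).out)⁻¹
    have ho : ∀ g, g * (o g)⁻¹ ∈ H := by
      intro g
      have h1 : ((g⁻¹ : FreeGroup X))⁻¹ * (((g⁻¹ : FreeGroup X) : FreeGroup X ⧸ H)).out ∈ H :=
        QuotientGroup.eq.1 (QuotientGroup.out_eq' _).symm
      rw [inv_inv] at h1
      change g * ((((g⁻¹ : FreeGroup X) : FreeGroup X ⧸ H).out)⁻¹)⁻¹ ∈ H
      rwa [inv_inv]
    have key : ∀ w : MonoidAlgebra K (FreeGroup X),
        w - MonoidAlgebra.ofCoeff (Finsupp.mapDomain o w.coeff) ∈ J K H := by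
      intro w
      induction w using MonoidAlgebra.induction_linear with
      | zero =>
        rw [MonoidAlgebra.coeff_zero, Finsupp.mapDomain_zero, MonoidAlgebra.ofCoeff_zero, sub_zero]
        exact zero_mem _
      | add a b ha hb =>
        rw [MonoidAlgebra.coeff_add, Finsupp.mapDomain_add, MonoidAlgebra.ofCoeff_add,
          add_sub_add_comm]
        exact add_mem ha hb
      | single g c =>
        rw [MonoidAlgebra.coeff_single, Finsupp.mapDomain_single]
        have h1 : (MonoidAlgebra.single (g * (o g)⁻¹) 1 - 1 : MonoidAlgebra K (FreeGroup X)) ∈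
            J K H := Submodule.subset_span ⟨_, ho g, rfl⟩
        have h2 := Submodule.smul_mem _ (MulOpposite.op (MonoidAlgebra.single (o g) c)) h1
        rw [op_smul_eq_mul, sub_mul, one_mul, MonoidAlgebra.single_mul_single, one_mul,
          inv_mul_cancel_right] at h2
        exact h2
    have h1 := key a
    have h2 : Finsupp.mapDomain o a.coeff =
        Finsupp.mapDomain (fun γ : FreeGroup X ⧸ H => (γ.out)⁻¹) (pr H a) := by
      rw [pr, ← Finsupp.mapDomain_comp]
      rfl
    rw [h2, ha, Finsupp.mapDomain_zero, MonoidAlgebra.ofCoeff_zero, sub_zero] at h1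
    exact h1

/-- Cyclic generators of `K[F]/J_H`. -/
theorem cyclic_iff [Finite K] [Fintype X] (S : Finset (FreeGroup X))
    (hS : Subgroup.closure (S : Set (FreeGroup X)) = H)
    (hmax : ∀ S' : Finset (FreeGroup X), S'.card ≤ S.card →
      H ≤ Subgroup.closure (S' : Set (FreeGroup X)) →
      Subgroup.closure (S' : Set (FreeGroup X)) = H)
    (m : MonoidAlgebra K (FreeGroup X) ⧸ J K H) :
    span (MonoidAlgebra K (FreeGroup X))ᵐᵒᵖ {m} = ⊤ ↔
      ∃ u : (MonoidAlgebra K (FreeGroup X))ˣ,
        Submodule.Quotient.mk (u : MonoidAlgebra K (FreeGroup X)) = m := by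
  constructor
  · intro h
    obtain ⟨a, rfl⟩ := Submodule.Quotient.mk_surjective _ m
    have h1 : (Submodule.Quotient.mk (1 : MonoidAlgebra K (FreeGroup X)) :
        MonoidAlgebra K (FreeGroup X) ⧸ J K H) ∈
        span (MonoidAlgebra K (FreeGroup X))ᵐᵒᵖ
          {(Submodule.Quotient.mk a : MonoidAlgebra K (FreeGroup X) ⧸ J K H)} := by
      rw [h]; exact Submodule.mem_top
    obtain ⟨c, hc⟩ := Submodule.mem_span_singleton.1 h1
    rw [← MulOpposite.op_unop c, ← Submodule.Quotient.mk_smul, op_smul_eq_mul,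
      Submodule.Quotient.eq, mem_J_iff, pr_sub, pr_one, sub_eq_zero, pr_mul] at hc
    obtain ⟨g, k, hk, hg⟩ := eq_single H S hS hmax _ _ hc
    refine ⟨⟨MonoidAlgebra.single g⁻¹ k, MonoidAlgebra.single g k⁻¹, ?_, ?_⟩, ?_⟩
    · rw [MonoidAlgebra.single_mul_single, inv_mul_cancel, mul_inv_cancel₀ hk]
      rfl
    · rw [MonoidAlgebra.single_mul_single, mul_inv_cancel, inv_mul_cancel₀ hk]
      rfl
    · rw [Submodule.Quotient.eq, mem_J_iff, pr_sub, hg, sub_eq_zero]
      change pr H (MonoidAlgebra.single g⁻¹ k) = _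
      rw [pr_single, inv_inv]
  · rintro ⟨u, rfl⟩
    rw [eq_top_iff]
    rintro m -
    obtain ⟨x, rfl⟩ := Submodule.Quotient.mk_surjective _ m
    rw [Submodule.mem_span_singleton]
    refine ⟨MulOpposite.op (((u⁻¹ : (MonoidAlgebra K (FreeGroup X))ˣ) :
      MonoidAlgebra K (FreeGroup X)) * x), ?_⟩
    rw [← Submodule.Quotient.mk_smul, op_smul_eq_mul, Units.mul_inv_cancel_left]

end free

end Pool.Agent.J4H61.RM
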