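import Pool.Agent.J4H61.RM.Dot
import Mathlib

set_option autoImplicit false

/-!
# Gradings
-/

namespace Pool.Agent.J4H61.RM

open Module Submodule

section laurent

open LaurentPolynomial

lemma laurent_unit {K : Type*} [Field K] (β μ : LaurentPolynomial K) (h : β * μ = 1) :
    ∃ (j : ℤ) (c : K), c ≠ 0 ∧ μ = C c * T j := by
  obtain ⟨n, p, hp⟩ := exists_T_pow β
  obtain ⟨m, q, hq⟩ := exists_T_pow μ
  have h1 : p * q = Polynomial.X ^ (n + m) := by
    apply Polynomial.toLaurent_injective
    rw [map_mul, hp, hq, Polynomial.toLaurent_X_pow]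
    calc β * T n * (μ * T m) = (β * μ) * (T n * T m) := by ring
      _ = _ := by rw [h, one_mul, ← T_add]; push_cast; rfl
  have h2 : q ∣ Polynomial.X ^ (n + m) := ⟨p, by rw [mul_comm, h1]⟩
  obtain ⟨i, -, hi⟩ := (dvd_prime_pow Polynomial.prime_X _).1 h2
  obtain ⟨u, hu⟩ := hi.symm
  obtain ⟨c, hc, hcu⟩ := Polynomial.isUnit_iff.1 u.isUnit
  refine ⟨i - m, c, hc.ne_zero, ?_⟩
  have h3 : μ = Polynomial.toLaurent q * T (-m) := by
    rw [hq, mul_T_assoc, add_neg_cancel, T_zero, mul_one]
  rw [h3, ← hu, ← hcu, map_mul, Polynomial.toLaurent_X_pow, Polynomial.toLaurent_C, mul_comm (T _),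
    mul_assoc, ← T_add]
  rfl

end laurent

section grade

variable {K : Type*} [Field K] {X : Type*} {Ω : Type*} [MulAction (FreeGroup X) Ω]

open LaurentPolynomial

/-- The image in the Laurent polynomials. -/
noncomputable def lam {S : Type*} (d : S → ℤ) : (S →₀ K) →ₗ[K] LaurentPolynomial K :=
  Finsupp.linearCombination K fun s => T (d s)

lemma lam_eq {S : Type*} (d : S → ℤ) (v : S →₀ K) :
    lam d v = ∑ s ∈ v.support, v s • (T (d s) : LaurentPolynomial K) :=
  Finsupp.linearCombination_apply K v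

open Classical in
lemma lam_coeff {S : Type*} (d : S → ℤ) (v : S →₀ K) (n : ℤ) :
    (lam d v).coeff n = aug K S (v.filter fun s => d s = n) := by
  induction v using Finsupp.induction_linear with
  | zero => rw [map_zero, Finsupp.filter_zero, map_zero]; rfl
  | add a b ha hb => rw [map_add, Finsupp.filter_add, map_add, ← ha, ← hb]; rfl
  | single s c =>
    rw [lam, Finsupp.linearCombination_single]
    by_cases h : d s = n
    · rw [Finsupp.filter_single_of_pos (fun s => d s = n) h, aug_single, h]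
      change (c • (Finsupp.single n 1 : ℤ →₀ K)) n = c
      simp
    · rw [Finsupp.filter_single_of_neg (fun s => d s = n) h, map_zero]
      change (c • (Finsupp.single (d s) 1 : ℤ →₀ K)) n = 0
      simp [h]

lemma lam_dot (b : FreeGroup X →₀ K) (m : Ω →₀ K) (d : FreeGroup X → ℤ) (δ : Ω → ℤ)
    (hd : ∀ g ∈ b.support, ∀ γ ∈ m.support, δ (g • γ) = d g + δ γ) :
    lam δ (dot b m) = lam d b * lam δ m := by
  have hb : dot b m = ∑ g ∈ b.support, ∑ γ ∈ m.support, Finsupp.single (g • γ) (b g * m γ) := by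
    conv_lhs => rw [← Finsupp.sum_single b, ← Finsupp.sum_single m]
    rw [Finsupp.sum, Finsupp.sum, map_sum dot, LinearMap.sum_apply]
    refine Finset.sum_congr rfl fun g _ => ?_
    rw [map_sum]
    refine Finset.sum_congr rfl fun γ _ => ?_
    rw [dot_single_single]
  rw [hb, lam_eq d b, lam_eq δ m, Finset.sum_mul_sum, map_sum]
  refine Finset.sum_congr rfl fun g hg => ?_
  rw [map_sum]
  refine Finset.sum_congr rfl fun γ hγ => ?_
  rw [lam, Finsupp.linearCombination_single, hd g hg γ hγ, T_add, smul_mul_smul_comm]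

open Classical in
/-- The augmentations of the homogeneous components of a unit. -/
lemma exists_monomial {b : FreeGroup X →₀ K} {m : Ω →₀ K} {ω0 : Ω}
    (hbm : dot b m = Finsupp.single ω0 1) (d : FreeGroup X → ℤ) (δ : Ω → ℤ)
    (hd : ∀ g ∈ b.support, ∀ γ ∈ m.support, δ (g • γ) = d g + δ γ) (h0 : δ ω0 = 0) :
    ∃ j : ℤ, (∀ n, aug K Ω (m.filter fun γ => δ γ = n) ≠ 0 ↔ n = j) ∧
      (aug K _ (b.filter fun g => d g = -j) ≠ 0) := by
  have h1 : lam d b * lam δ m = 1 := by
    rw [← lam_dot b m d δ hd, hbm, lam, Finsupp.linearCombination_single, h0, one_smul, T_zero]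
  obtain ⟨j, c, hc, hμ⟩ := laurent_unit _ _ h1
  have h2 : ∀ n, (lam δ m).coeff n = if n = j then c else 0 := by
    intro n
    rw [hμ, ← single_eq_C_mul_T]
    change (Finsupp.single j c) n = _
    rw [Finsupp.single_apply]
    simp only [eq_comm]
  have h3 : lam d b = C c⁻¹ * T (-j) := by
    have h4 : lam δ m * (C c⁻¹ * T (-j)) = 1 := by
      rw [hμ]
      calc C c * T j * (C c⁻¹ * T (-j)) = (C c * C c⁻¹) * (T j * T (-j)) := by ring
        _ = 1 := by rw [← map_mul, mul_inv_cancel₀ hc, ← T_add, add_neg_cancel, T_zero, map_one,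
            mul_one]
    calc lam d b = lam d b * (lam δ m * (C c⁻¹ * T (-j))) := by rw [h4, mul_one]
      _ = (lam d b * lam δ m) * (C c⁻¹ * T (-j)) := by ring
      _ = _ := by rw [h1, one_mul]
  refine ⟨j, fun n => ?_, ?_⟩
  · rw [← lam_coeff, h2]
    by_cases hn : n = j <;> simp [hn, hc]
  · rw [← lam_coeff, h3, ← single_eq_C_mul_T]
    change (Finsupp.single (-j) c⁻¹ : ℤ →₀ K) (-j) ≠ 0
    rw [Finsupp.single_eq_same]
    exact inv_ne_zero hc

open Classical in
/-- The top degree. -/
lemma le_of_monomial [Fintype X]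
    (hpos : PosOn (opp K X Ω) (LinearMap.ker (aug K Ω))) {b : FreeGroup X →₀ K} {m : Ω →₀ K}
    {ω0 : Ω} (hbm : dot b m = Finsupp.single ω0 1) (d : FreeGroup X → ℤ) (δ : Ω → ℤ)
    (hd : ∀ g ∈ b.support, ∀ γ ∈ m.support, δ (g • γ) = d g + δ γ) (h0 : δ ω0 = 0) (j : ℤ)
    (hj : ∀ n, aug K Ω (m.filter fun γ => δ γ = n) ≠ 0 ↔ n = j)
    (hj' : aug K _ (b.filter fun g => d g = -j) ≠ 0) :
    ∀ γ ∈ m.support, δ γ ≤ j := by
  have hm0 : m ≠ 0 := by
    rintro rfl
    rw [map_zero] at hbm
    exact one_ne_zero (Finsupp.single_eq_zero.1 hbm.symm)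
  have hb0 : b ≠ 0 := by
    rintro rfl
    rw [map_zero, LinearMap.zero_apply] at hbm
    exact one_ne_zero (Finsupp.single_eq_zero.1 hbm.symm)
  obtain ⟨γt, hγt, hmaxt⟩ := Finset.exists_max_image m.support δ (Finsupp.support_nonempty_iff.2 hm0)
  obtain ⟨gu, hgu, hmaxu⟩ := Finset.exists_max_image b.support d (Finsupp.support_nonempty_iff.2 hb0)
  -- bounds for `j`
  have hu : -j ≤ d gu := by
    have : b.filter (fun g => d g = -j) ≠ 0 := by
      intro h
      rw [h, map_zero] at hj'
      exact hj' rfl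
    obtain ⟨g, hg⟩ := Finsupp.support_nonempty_iff.2 this
    rw [Finsupp.support_filter, Finset.mem_filter] at hg
    rw [← hg.2]
    exact hmaxu g hg.1
  have ht : j ≤ δ γt := by
    have : m.filter (fun γ => δ γ = j) ≠ 0 := by
      intro h
      have := (hj j).2 rfl
      rw [h, map_zero] at this
      exact this rfl
    obtain ⟨γ, hγ⟩ := Finsupp.support_nonempty_iff.2 this
    rw [Finsupp.support_filter, Finset.mem_filter] at hγ
    rw [← hγ.2]
    exact hmaxt γ hγ.1
  suffices h : δ γt ≤ j from fun γ hγ => (hmaxt γ hγ).trans h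
  by_cases hut : d gu + δ γt = 0
  · linarith
  -- the product of the top components vanishes
  set bu := b.filter fun g => d g = d gu with hbu
  set mt := m.filter fun γ => δ γ = δ γt with hmt
  have hbu0 : bu ≠ 0 := by
    apply Finsupp.support_nonempty_iff.1
    exact ⟨gu, by rw [hbu, Finsupp.support_filter, Finset.mem_filter]; exact ⟨hgu, rfl⟩⟩
  have hmt0 : mt ≠ 0 := by
    apply Finsupp.support_nonempty_iff.1
    exact ⟨γt, by rw [hmt, Finsupp.support_filter, Finset.mem_filter]; exact ⟨hγt, rfl⟩⟩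
  have hbsplit : b = bu + b.filter (fun g => ¬ d g = d gu) := by
    rw [hbu, Finsupp.filter_add_filter_not]
  have hmsplit : m = mt + m.filter (fun γ => ¬ δ γ = δ γt) := by
    rw [hmt, Finsupp.filter_add_filter_not]
  have hzero : dot bu mt = 0 := by
    ext ω
    rw [Finsupp.zero_apply]
    by_contra hne
    obtain ⟨g, hg, γ, hγ, rfl⟩ := exists_of_dot_ne_zero hne
    rw [hbu, Finsupp.support_filter, Finset.mem_filter] at hg
    rw [hmt, Finsupp.support_filter, Finset.mem_filter] at hγ
    have hδ : δ (g • γ) = d gu + δ γt := by rw [hd g hg.1 γ hγ.1, hg.2, hγ.2]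
    have h1 : dot b m (g • γ) = dot bu mt (g • γ) := by
      have h2 : dot b m = dot bu mt + dot bu (m.filter (fun γ => ¬ δ γ = δ γt)) +
          dot (b.filter (fun g => ¬ d g = d gu)) m := by
        conv_lhs => rw [hbsplit, map_add, LinearMap.add_apply]
        congr 1
        conv_lhs => rw [hmsplit, map_add]
      have h3 : dot bu (m.filter (fun γ => ¬ δ γ = δ γt)) (g • γ) = 0 := by
        by_contra h4
        obtain ⟨g', hg', γ', hγ', heq⟩ := exists_of_dot_ne_zero h4
        rw [hbu, Finsupp.support_filter, Finset.mem_filter] at hg'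
        rw [Finsupp.support_filter, Finset.mem_filter] at hγ'
        rw [heq, hd g' hg'.1 γ' hγ'.1] at hδ
        have h5 := hmaxu g' hg'.1
        have h6 := hmaxt γ' hγ'.1
        apply hγ'.2
        linarith
      have h4 : dot (b.filter (fun g => ¬ d g = d gu)) m (g • γ) = 0 := by
        by_contra h4
        obtain ⟨g', hg', γ', hγ', heq⟩ := exists_of_dot_ne_zero h4
        rw [Finsupp.support_filter, Finset.mem_filter] at hg'
        rw [heq, hd g' hg'.1 γ' hγ'] at hδ
        have h5 := hmaxu g' hg'.1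
        have h6 := hmaxt γ' hγ'
        apply hg'.2
        linarith
      rw [h2, Finsupp.add_apply, Finsupp.add_apply, h3, h4, add_zero, add_zero]
    rw [← h1, hbm] at hne
    have h5 : g • γ = ω0 := by
      by_contra h6
      exact hne (Finsupp.single_eq_of_ne h6)
    apply hut
    rw [← hδ, h5, h0]
  have haug : aug K Ω mt ≠ 0 := fun h => dot_ne_zero hpos mt h hmt0 bu hbu0 hzero
  exact ((hj _).1 haug).le

open Classical in
/-- The element `m` is homogeneous. -/
theorem homogeneous [Fintype X]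
    (hpos : PosOn (opp K X Ω) (LinearMap.ker (aug K Ω))) {b : FreeGroup X →₀ K} {m : Ω →₀ K}
    {ω0 : Ω} (hbm : dot b m = Finsupp.single ω0 1) (d : FreeGroup X → ℤ) (δ : Ω → ℤ)
    (hd : ∀ g ∈ b.support, ∀ γ ∈ m.support, δ (g • γ) = d g + δ γ) (h0 : δ ω0 = 0) :
    ∃ j : ℤ, ∀ γ ∈ m.support, δ γ = j := by
  obtain ⟨j, hj, hj'⟩ := exists_monomial hbm d δ hd h0
  refine ⟨j, fun γ hγ => le_antisymm (le_of_monomial hpos hbm d δ hd h0 j hj hj' γ hγ) ?_⟩
  have h1 := le_of_monomial hpos hbm (fun g => -d g) (fun γ => -δ γ)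
    (fun g hg γ hγ => by rw [hd g hg γ hγ, neg_add]) (by rw [h0, neg_zero]) (-j)
    (fun n => by
      simp only [neg_eq_iff_eq_neg]
      rw [hj (-n), neg_eq_iff_eq_neg])
    (by
      simp only [neg_eq_iff_eq_neg]
      rwa [neg_neg]) γ hγ
  linarith

end grade

end Pool.Agent.J4H61.RM
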