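import Mathlib

set_option autoImplicit false

/-!
# Homomorphisms from free groups to the integers
-/

namespace Pool.Agent.J4H61.RM

section deg

variable {L : Type*} [Group L] {ι : Type*} (b : FreeGroupBasis ι L)

lemma lift_basis {H : Type*} [Group H] (f : ι → H) (i : ι) : b.lift f (b i) = f i := by
  rw [FreeGroupBasis.lift_apply_apply, FreeGroupBasis.repr_apply_coe, FreeGroup.lift_apply_of]

/-- The homomorphism with prescribed values on a part of the basis. -/
noncomputable def hdeg {k : ℕ} (e : Fin (k + 1) ↪ ι) (f : Fin (k + 1) → ℤ) :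
    L →* Multiplicative ℤ :=
  b.lift fun i => Multiplicative.ofAdd (Function.extend e f 0 i)

lemma hdeg_basis {k : ℕ} (e : Fin (k + 1) ↪ ι) (f : Fin (k + 1) → ℤ) (j : Fin (k + 1)) :
    hdeg b e f (b (e j)) = Multiplicative.ofAdd (f j) := by
  rw [hdeg, lift_basis, e.injective.extend_apply]

lemma hdeg_add {k : ℕ} (e : Fin (k + 1) ↪ ι) (f g : Fin (k + 1) → ℤ) :
    hdeg b e (f + g) = hdeg b e f * hdeg b e g := by
  apply b.ext_hom
  intro i
  rw [MonoidHom.mul_apply, hdeg, hdeg, hdeg, lift_basis, lift_basis, lift_basis, ← ofAdd_add]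
  congr 1
  by_cases h : ∃ j, e j = i
  · obtain ⟨j, rfl⟩ := h
    rw [e.injective.extend_apply, e.injective.extend_apply, e.injective.extend_apply]
    rfl
  · rw [Function.extend_apply' _ _ _ h, Function.extend_apply' _ _ _ h,
      Function.extend_apply' _ _ _ h]
    rfl

include b in
theorem exists_deg (S : Finset L) (k : ℕ) (hk : S.card ≤ k) (e : Fin (k + 1) ↪ ι) :
    ∃ deg : L →* Multiplicative ℤ, (∀ s ∈ S, deg s = 1) ∧ ∃ l, deg l ≠ 1 := by
  let Φ : (Fin (k + 1) → ℤ) →+ (S → ℤ) :=
    AddMonoidHom.mk' (fun f s => Multiplicative.toAdd (hdeg b e f (s : L))) (by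
      intro f g
      ext s
      rw [hdeg_add]
      rfl)
  have hni : ¬ Function.Injective Φ.toIntLinearMap := by
    intro h
    have := card_le_of_injective ℤ Φ.toIntLinearMap h
    rw [Fintype.card_fin, Fintype.card_coe] at this
    omega
  rw [injective_iff_map_eq_zero] at hni
  push Not at hni
  obtain ⟨f, hf, hf0⟩ := hni
  refine ⟨hdeg b e f, ?_, ?_⟩
  · intro s hs
    have := congrFun hf ⟨s, hs⟩
    exact this
  · obtain ⟨j, hj⟩ := Function.ne_iff.1 hf0
    refine ⟨b (e j), ?_⟩
    rw [hdeg_basis]
    exact fun h => hj (ofAdd_eq_one.1 h)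

lemma closure_basis : Subgroup.closure (Set.range b) = ⊤ := by
  have h1 : (Set.range b) = b.repr.symm '' (Set.range FreeGroup.of) := by
    rw [← Set.range_comp]
    rfl
  rw [h1, ← MulEquiv.coe_toMonoidHom, ← MonoidHom.map_closure, FreeGroup.closure_range_of,
    ← MonoidHom.range_eq_map]
  exact MonoidHom.range_eq_top.2 b.repr.symm.surjective

lemma embedding_or (k : ℕ) : Nonempty (Fin (k + 1) ↪ ι) ∨ ∃ _ : Fintype ι, Fintype.card ι ≤ k := by
  classical
  rcases finite_or_infinite ι with h | h
  · have := Fintype.ofFinite ι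
    by_cases hk : Fintype.card ι ≤ k
    · exact Or.inr ⟨this, hk⟩
    · left
      apply Function.Embedding.nonempty_of_card_le
      rw [Fintype.card_fin]
      omega
  · left
    exact ⟨Fin.valEmbedding.trans (Infinite.natEmbedding ι)⟩

include b in
/-- A free group generated by `k` elements has a free basis of at most `k` elements. -/
theorem exists_basis_card_le (S : Finset L) (hS : Subgroup.closure (S : Set L) = ⊤) :
    ∃ n ≤ S.card, Nonempty (FreeGroupBasis (Fin n) L) := by
  classical
  rcases embedding_or (ι := ι) S.card with ⟨⟨e⟩⟩ | ⟨hι, hc⟩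
  · exfalso
    obtain ⟨deg, h1, l, hl⟩ := exists_deg b S S.card le_rfl e
    apply hl
    have : deg = 1 := MonoidHom.eq_of_eqOn_dense hS fun s hs => h1 s hs
    rw [this]
    rfl
  · exact ⟨Fintype.card ι, hc, ⟨b.reindex (Fintype.equivFin ι)⟩⟩

end deg

section sub

variable {F : Type*} [Group F] [IsFreeGroup F]

/-- A subgroup generated by `k` elements has a free basis of at most `k` elements. -/
theorem exists_basis_card_le' (S : Finset F) :
    ∃ n ≤ S.card, Nonempty (FreeGroupBasis (Fin n) (Subgroup.closure (S : Set F))) := by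
  classical
  set H := Subgroup.closure (S : Set F) with hH
  let S' : Finset H := S.attach.image fun s => ⟨s.1, Subgroup.subset_closure s.2⟩
  have hS' : Subgroup.closure (S' : Set H) = ⊤ := by
    have : (S' : Set H) = ((↑) : H → F) ⁻¹' (S : Set F) := by
      ext x
      simp only [S', Finset.coe_image, Set.mem_image, Finset.mem_coe, Finset.mem_attach, true_and,
        Set.mem_preimage, Subtype.exists]
      constructor
      · rintro ⟨a, ha, rfl⟩
        exact ha
      · intro h
        exact ⟨x, h, rfl⟩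
    rw [this]
    exact Subgroup.closure_closure_coe_preimage
  obtain ⟨n, hn, h⟩ := exists_basis_card_le (IsFreeGroup.basis H) S' hS'
  refine ⟨n, hn.trans ?_, h⟩
  exact Finset.card_image_le.trans (by rw [Finset.card_attach])

theorem exists_deg' (H L : Subgroup F) (hHL : H ≤ L) (S : Finset F)
    (hS : Subgroup.closure (S : Set F) = H)
    (hL : ∀ S' : Finset F, S'.card ≤ S.card → Subgroup.closure (S' : Set F) ≠ L) :
    ∃ deg : L →* Multiplicative ℤ, (∀ (h : F) (hh : h ∈ H), deg ⟨h, hHL hh⟩ = 1) ∧
      ∃ l, deg l ≠ 1 := by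
  classical
  set b := IsFreeGroup.basis L with hb
  rcases embedding_or (ι := IsFreeGroup.Generators L) S.card with ⟨⟨e⟩⟩ | ⟨hι, hc⟩
  · have hSL : ∀ s ∈ S, s ∈ L := fun s hs => hHL (hS ▸ Subgroup.subset_closure hs)
    let S' : Finset L := S.attach.image fun s => ⟨s.1, hSL s.1 s.2⟩
    have hc : S'.card ≤ S.card := Finset.card_image_le.trans (by rw [Finset.card_attach])
    obtain ⟨deg, h1, l, hl⟩ := exists_deg b S' S.card hc e
    refine ⟨deg, ?_, l, hl⟩
    intro h hh
    have key : ∀ h ∈ Subgroup.closure (S : Set F), ∀ hl : h ∈ L, deg ⟨h, hl⟩ = 1 := by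
      intro h hh
      induction hh using Subgroup.closure_induction with
      | mem x hx =>
        intro hl
        apply h1
        exact Finset.mem_image.2 ⟨⟨x, hx⟩, Finset.mem_attach _ _, rfl⟩
      | one => intro hl; exact map_one deg
      | mul x y hx hy ihx ihy =>
        intro hl
        have hx' : x ∈ L := hHL (hS ▸ hx)
        have hy' : y ∈ L := hHL (hS ▸ hy)
        have : (⟨x * y, hl⟩ : L) = ⟨x, hx'⟩ * ⟨y, hy'⟩ := rfl
        rw [this, map_mul, ihx, ihy, mul_one]
      | inv x hx ihx =>
        intro hl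
        have hx' : x ∈ L := hHL (hS ▸ hx)
        have : (⟨x⁻¹, hl⟩ : L) = (⟨x, hx'⟩ : L)⁻¹ := rfl
        rw [this, map_inv, ihx, inv_one]
    exact key h (hS ▸ hh) _
  · exfalso
    refine hL ((Finset.univ : Finset (IsFreeGroup.Generators L)).image fun i => (b i : F)) ?_ ?_
    · refine Finset.card_image_le.trans ?_
      rwa [Finset.card_univ]
    · rw [Finset.coe_image, Finset.coe_univ, Set.image_univ]
      have h1 : Set.range (fun i => (b i : F)) = L.subtype '' (Set.range b) := by
        rw [← Set.range_comp]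
        rfl
      rw [h1, ← MonoidHom.map_closure, closure_basis, ← MonoidHom.range_eq_map,
        Subgroup.range_subtype]

end sub

end Pool.Agent.J4H61.RM
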