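import Pool.Agent.J4H61.RM.Pos
import Pool.Agent.J4H61.RM.Lau
import Pool.Agent.J4H61.RM.Rk

set_option autoImplicit false

/-!
# Units of `K[F/H]`, `H` rank-maximal
-/

namespace Pool.Agent.J4H61.RM

open Module Submodule

section main

variable {K : Type*} [Field K] [Finite K] {X : Type*} [Fintype X] (H : Subgroup (FreeGroup X))

open Classical in
/-- The case where the trivial coset is in the support. -/
theorem eq_single_one (S : Finset (FreeGroup X))
    (hS : Subgroup.closure (S : Set (FreeGroup X)) = H)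
    (hmax : ∀ S' : Finset (FreeGroup X), S'.card ≤ S.card →
      H ≤ Subgroup.closure (S' : Set (FreeGroup X)) →
      Subgroup.closure (S' : Set (FreeGroup X)) = H)
    (b : FreeGroup X →₀ K) (m : (FreeGroup X ⧸ H) →₀ K)
    (hbm : dot b m = Finsupp.single ((1 : FreeGroup X) : FreeGroup X ⧸ H) 1)
    (h1 : m ((1 : FreeGroup X) : FreeGroup X ⧸ H) ≠ 0) :
    m.support = {((1 : FreeGroup X) : FreeGroup X ⧸ H)} := by
  have hpos := posOn_aug (K := K) H S hS hmax
  set L : Subgroup (FreeGroup X) :=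
    Subgroup.closure {g | m (g : FreeGroup X ⧸ H) ≠ 0} with hLdef
  have hone : ∀ h ∈ H, ((h : FreeGroup X) : FreeGroup X ⧸ H) = ((1 : FreeGroup X) : FreeGroup X ⧸ H) :=
    fun h hh => QuotientGroup.eq.2 (by simpa using H.inv_mem hh)
  have hHL : H ≤ L := by
    intro h hh
    apply Subgroup.subset_closure
    change m (h : FreeGroup X ⧸ H) ≠ 0
    rwa [hone h hh]
  by_cases hL : L = H
  · rw [Finset.eq_singleton_iff_unique_mem]
    refine ⟨Finsupp.mem_support_iff.2 h1, ?_⟩
    intro γ hγ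
    obtain ⟨g, rfl⟩ := QuotientGroup.mk_surjective γ
    have : g ∈ L := Subgroup.subset_closure (Finsupp.mem_support_iff.1 hγ)
    rw [hL] at this
    exact hone g this
  exfalso
  obtain ⟨deg, hdegH, l, hl⟩ := exists_deg' H L hHL S hS (by
    intro S' hS' h
    apply hL
    rw [← h]
    exact hmax S' hS' (h ▸ hHL))
  -- the degree functions
  let d : FreeGroup X → ℤ := fun g => if h : g ∈ L then Multiplicative.toAdd (deg ⟨g, h⟩) else 0
  have hd : ∀ (g : FreeGroup X) (h : g ∈ L), d g = Multiplicative.toAdd (deg ⟨g, h⟩) :=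
    fun g h => dif_pos h
  have hdmul : ∀ g ∈ L, ∀ g' ∈ L, d (g * g') = d g + d g' := by
    intro g hg g' hg'
    rw [hd g hg, hd g' hg', hd _ (L.mul_mem hg hg'), ← toAdd_mul, ← map_mul]
    rfl
  have hdH : ∀ h ∈ H, d h = 0 := by
    intro h hh
    rw [hd h (hHL hh), hdegH h hh, toAdd_one]
  let δ : FreeGroup X ⧸ H → ℤ := fun γ => d γ.out
  have hout : ∀ g : FreeGroup X, g⁻¹ * ((g : FreeGroup X ⧸ H)).out ∈ H := fun g =>
    QuotientGroup.eq.1 (QuotientGroup.out_eq' _).symm
  have hδ : ∀ g ∈ L, δ (g : FreeGroup X ⧸ H) = d g := by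
    intro g hg
    have h2 := hout g
    have h3 : ((g : FreeGroup X ⧸ H)).out = g * (g⁻¹ * ((g : FreeGroup X ⧸ H)).out) := by
      rw [mul_inv_cancel_left]
    change d ((g : FreeGroup X ⧸ H)).out = d g
    rw [h3, hdmul g hg _ (hHL h2), hdH _ h2, add_zero]
  have hmL : ∀ g : FreeGroup X, m (g : FreeGroup X ⧸ H) ≠ 0 → g ∈ L := fun g hg =>
    Subgroup.subset_closure hg
  -- the restriction of `b`
  set b' := b.filter (fun g => g ∈ L) with hb'
  have hb'm : dot b' m = Finsupp.single ((1 : FreeGroup X) : FreeGroup X ⧸ H) 1 := by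
    have hsplit : dot b m = dot b' m + dot (b.filter fun g => ¬ g ∈ L) m := by
      rw [← LinearMap.add_apply, ← map_add, hb', Finsupp.filter_add_filter_not]
    ext γ
    obtain ⟨w, rfl⟩ := QuotientGroup.mk_surjective γ
    by_cases hw : w ∈ L
    · have h2 : dot (b.filter fun g => ¬ g ∈ L) m (w : FreeGroup X ⧸ H) = 0 := by
        by_contra hne
        obtain ⟨g, hg, γ, hγ, heq⟩ := exists_of_dot_ne_zero hne
        obtain ⟨g', rfl⟩ := QuotientGroup.mk_surjective γ
        rw [Finsupp.support_filter, Finset.mem_filter] at hg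
        have hg' := hmL g' (Finsupp.mem_support_iff.1 hγ)
        have h3 : w⁻¹ * (g * g') ∈ H := QuotientGroup.eq.1 heq
        apply hg.2
        have h4 : g = w * (w⁻¹ * (g * g')) * g'⁻¹ := by group
        rw [h4]
        exact L.mul_mem (L.mul_mem hw (hHL h3)) (L.inv_mem hg')
      have h5 := DFunLike.congr_fun hsplit (w : FreeGroup X ⧸ H)
      rw [Finsupp.add_apply, h2, add_zero] at h5
      rw [← h5, hbm]
    · have h2 : dot b' m (w : FreeGroup X ⧸ H) = 0 := by
        by_contra hne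
        obtain ⟨g, hg, γ, hγ, heq⟩ := exists_of_dot_ne_zero hne
        obtain ⟨g', rfl⟩ := QuotientGroup.mk_surjective γ
        rw [hb', Finsupp.support_filter, Finset.mem_filter] at hg
        have hg' := hmL g' (Finsupp.mem_support_iff.1 hγ)
        have h3 : w⁻¹ * (g * g') ∈ H := QuotientGroup.eq.1 heq
        apply hw
        have h4 : w = (g * g') * (w⁻¹ * (g * g'))⁻¹ := by group
        rw [h4]
        exact L.mul_mem (L.mul_mem hg.2 hg') (L.inv_mem (hHL h3))
      rw [h2, Finsupp.single_eq_of_ne]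
      intro h3
      apply hw
      have h4 : w⁻¹ * 1 ∈ H := QuotientGroup.eq.1 h3
      rw [mul_one] at h4
      exact hHL (H.inv_mem_iff.1 h4)
  have hdδ : ∀ g ∈ b'.support, ∀ γ ∈ m.support, δ (g • γ) = d g + δ γ := by
    intro g hg γ hγ
    obtain ⟨g', rfl⟩ := QuotientGroup.mk_surjective γ
    rw [hb', Finsupp.support_filter, Finset.mem_filter] at hg
    have hg' := hmL g' (Finsupp.mem_support_iff.1 hγ)
    change δ ((g * g' : FreeGroup X) : FreeGroup X ⧸ H) = _
    rw [hδ _ (L.mul_mem hg.2 hg'), hδ _ hg', hdmul g hg.2 g' hg']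
  have hδ1 : δ ((1 : FreeGroup X) : FreeGroup X ⧸ H) = 0 := by
    rw [hδ 1 L.one_mem, hdH 1 H.one_mem]
  obtain ⟨j, hj⟩ := homogeneous hpos hb'm d δ hdδ hδ1
  have hj0 : j = 0 := by
    rw [← hj _ (Finsupp.mem_support_iff.2 h1), hδ1]
  apply hl
  have key : ∀ g ∈ L, ∀ hl : g ∈ L, deg ⟨g, hl⟩ = 1 := by
    intro g hg
    rw [hLdef] at hg
    induction hg using Subgroup.closure_induction with
    | mem x hx =>
      intro hl
      have h2 := hj _ (Finsupp.mem_support_iff.2 hx)
      rw [hδ x hl, hd x hl, hj0] at h2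
      exact toAdd_eq_zero.1 h2
    | one => intro hl; exact map_one deg
    | mul x y hx hy ihx ihy =>
      intro hl
      have : (⟨x * y, hl⟩ : L) = (⟨x, hx⟩ : L) * ⟨y, hy⟩ := rfl
      rw [this, map_mul, ihx, ihy, mul_one]
    | inv x hx ihx =>
      intro hl
      have : (⟨x⁻¹, hl⟩ : L) = (⟨x, hx⟩ : L)⁻¹ := rfl
      rw [this, map_inv, ihx, inv_one]
  exact key l.1 l.2 l.2

/-- Trivial units. -/
theorem eq_single (S : Finset (FreeGroup X))
    (hS : Subgroup.closure (S : Set (FreeGroup X)) = H)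
    (hmax : ∀ S' : Finset (FreeGroup X), S'.card ≤ S.card →
      H ≤ Subgroup.closure (S' : Set (FreeGroup X)) →
      Subgroup.closure (S' : Set (FreeGroup X)) = H)
    (b : FreeGroup X →₀ K) (m : (FreeGroup X ⧸ H) →₀ K)
    (hbm : dot b m = Finsupp.single ((1 : FreeGroup X) : FreeGroup X ⧸ H) 1) :
    ∃ (g : FreeGroup X) (c : K), c ≠ 0 ∧ m = Finsupp.single (g : FreeGroup X ⧸ H) c := by
  classical
  have hm0 : m ≠ 0 := by
    rintro rfl
    rw [map_zero] at hbm
    exact one_ne_zero (Finsupp.single_eq_zero.1 hbm.symm)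
  obtain ⟨γ, hγ⟩ := Finsupp.support_nonempty_iff.2 hm0
  obtain ⟨g, rfl⟩ := QuotientGroup.mk_surjective γ
  -- translate
  set m' := act K (FreeGroup X ⧸ H) g⁻¹ m with hm'
  set b' : FreeGroup X →₀ K := Finsupp.mapDomain (fun x => x * g) b with hb'
  have hdot : ∀ (b : FreeGroup X →₀ K) (v : (FreeGroup X ⧸ H) →₀ K),
      dot (Finsupp.mapDomain (fun x => x * g) b) v = dot b (act K _ g v) := by
    intro b v
    induction b using Finsupp.induction_linear with
    | zero => rw [Finsupp.mapDomain_zero, map_zero, LinearMap.zero_apply, LinearMap.zero_apply]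
    | add a b ha hb => rw [Finsupp.mapDomain_add, map_add, LinearMap.add_apply, ha, hb, map_add,
        LinearMap.add_apply]
    | single x c => rw [Finsupp.mapDomain_single, dot_single, dot_single, act_mul]
  have hbm' : dot b' m' = Finsupp.single ((1 : FreeGroup X) : FreeGroup X ⧸ H) 1 := by
    rw [hb', hdot, hm', ← act_mul, mul_inv_cancel, act_one, hbm]
  have h1 : m' ((1 : FreeGroup X) : FreeGroup X ⧸ H) ≠ 0 := by
    rw [hm', act_apply, inv_inv]
    change m ((g * 1 : FreeGroup X) : FreeGroup X ⧸ H) ≠ 0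
    rw [mul_one]
    exact Finsupp.mem_support_iff.1 hγ
  have h2 := eq_single_one H S hS hmax b' m' hbm' h1
  obtain ⟨c, hc⟩ := Finsupp.support_subset_singleton'.1 h2.subset
  refine ⟨g, c, ?_, ?_⟩
  · rintro rfl
    rw [hc, Finsupp.single_zero, Finsupp.zero_apply] at h1
    exact h1 rfl
  · have h3 : m = act K (FreeGroup X ⧸ H) g m' := by
      rw [hm', ← act_mul, mul_inv_cancel, act_one]
    rw [h3, hc, act_single]
    change Finsupp.single ((g * 1 : FreeGroup X) : FreeGroup X ⧸ H) c = _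
    rw [mul_one]

end main

end Pool.Agent.J4H61.RM
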