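import Pool.Agent.J4H61.RM.Coset
import Pool.Agent.J4H61.RM.Aug

set_option autoImplicit false

/-!
# Positivity of the augmentation submodule of `K[F/H]`, `H` rank-maximal
-/

namespace Pool.Agent.J4H61.RM

open Module Submodule

section quot

variable {K : Type*} [Field K] {V : Type*} [AddCommGroup V] [Module K V] {X : Type*}
  [Fintype X] {T : X → V ≃ₗ[K] V} {U : Submodule K V}

/-- The operators on the quotient. -/
noncomputable def qop (T : X → V ≃ₗ[K] V) (U : Submodule K V)
    (hU : ∀ x, U.map (T x : V →ₗ[K] V) = U) (x : X) : (V ⧸ U) ≃ₗ[K] (V ⧸ U) :=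
  Submodule.Quotient.equiv U U (T x) (hU x)

lemma qop_equi (hU : ∀ x, U.map (T x : V →ₗ[K] V) = U) : Equi T (qop T U hU) U.mkQ :=
  fun _ _ => rfl

lemma map_eq_of_le (h1 : ∀ x, U.map (T x : V →ₗ[K] V) ≤ U)
    (h2 : ∀ x, U.map ((T x).symm : V →ₗ[K] V) ≤ U) (x : X) : U.map (T x : V →ₗ[K] V) = U := by
  refine le_antisymm (h1 x) fun v hv => ?_
  exact ⟨(T x).symm v, h2 x ⟨v, hv, rfl⟩, (T x).apply_symm_apply v⟩

end quot

section com

variable {K : Type*} [Field K] {X : Type*} [Fintype X] {Ω : Type*} [MulAction (FreeGroup X) Ω]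
  {M : Type*} [AddCommGroup M] [Module K M] {π : (Ω →₀ K) →ₗ[K] M} {S : X → M ≃ₗ[K] M}

lemma equi_bb (hπ : Equi (opp K X Ω) S π) (x : X) (γ : Ω) :
    S x (bb π γ) = bb π (FreeGroup.of x • γ) := by
  rw [bb, ← hπ, bb]
  congr 1
  exact act_single _ _ _

lemma com_equi (hπ : Equi (opp K X Ω) S π) :
    Equi (opp K X Ω) (tw S fun x => (S x).dualMap) (com π) := by
  intro x v
  have : com π ∘ₗ (opp K X Ω x : _ →ₗ[K] _) =
      (tw S (fun x => (S x).dualMap) x : _ →ₗ[K] _) ∘ₗ com π := by
    refine Finsupp.lhom_ext fun γ c => ?_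
    ext f
    change com π (act K Ω (FreeGroup.of x) (Finsupp.single γ c)) f =
      S x (com π (Finsupp.single γ c) ((S x).dualMap f))
    rw [act_single, com_single, com_single, map_smul, map_smul, equi_bb hπ]
    congr 2
    change _ = f (S x (bb π γ))
    rw [equi_bb hπ]
  exact LinearMap.congr_fun this v

/-- The comultiplication kills the union of the minimizers. -/
theorem minU_le_ker_com [Finite K] (hπ : Equi (opp K X Ω) S π)
    (hsurj : Function.Surjective π) (e : M →ₗ[K] K) (he : ∀ v, e (π v) = aug K Ω v)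
    (hne : ∃ E, IsMin (opp K X Ω) (LinearMap.ker (aug K Ω)) E)
    (hk : LinearMap.ker π = minU (opp K X Ω) (LinearMap.ker (aug K Ω))) :
    LinearMap.ker π ≤ LinearMap.ker (com π) := by
  classical
  set Q := LinearMap.ker (aug K Ω) with hQ
  have hposM : PosOn S (Q.map π) := posOn_quot _ _ hne hπ hk
  have heb : ∀ γ, e (bb π γ) = 1 := fun γ => by rw [bb, he, aug_single]
  have hmemQ : ∀ m, e m = 0 → m ∈ Q.map π := by
    intro m hm
    obtain ⟨v, rfl⟩ := hsurj m
    rw [he] at hm
    exact ⟨v, hm, rfl⟩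
  -- evaluation at `e`
  let ψ : (Dual K M →ₗ[K] M) →ₗ[K] M := LinearMap.applyₗ e
  have hψ : ∀ Φ, ψ Φ = Φ e := fun Φ => rfl
  have hψD : ∀ v, ψ (com π v) = π v := by
    intro v
    rw [hψ, com_apply, pi_eq π v]
    refine Finset.sum_congr rfl fun γ _ => ?_
    beta_reduce
    rw [heb, one_smul]
  have hSe : ∀ x, (S x).dualMap e = e := by
    intro x
    ext m
    obtain ⟨v, rfl⟩ := hsurj m
    change e (S x (π v)) = e (π v)
    rw [← hπ, he, he, aug_opp]
  have hψe : Equi (tw S fun x => (S x).dualMap) S ψ := by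
    intro x Φ
    change S x (Φ ((S x).dualMap e)) = S x (Φ e)
    rw [hSe]
  have hpos : PosOn (tw S fun x => (S x).dualMap) (Q.map (com π)) := by
    refine posOn_ext _ _ hψe (Q' := Q.map π) ?_ hposM ?_
    · rintro _ ⟨v, hv, rfl⟩
      rw [hψD]
      exact ⟨v, hv, rfl⟩
    · intro E hE hEf h0
      obtain ⟨s, hs⟩ := (Submodule.fg_iff_finiteDimensional E).2 hEf
      have hs' : ∀ Φ ∈ s, ∃ v, com π v = Φ := by
        intro Φ hΦ
        have : Φ ∈ E := hs ▸ subset_span hΦ
        obtain ⟨v, _, hv⟩ := (hE this).1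
        exact ⟨v, hv⟩
      choose! w hw using hs'
      set Y : Finset Ω := s.biUnion fun Φ => (w Φ).support with hY
      set M0 : Submodule K M := span K ((Y.image (bb π) : Finset M) : Set M) with hM0
      have hM0f : FiniteDimensional K M0 := FiniteDimensional.span_finset K _
      refine tensor_lemma S S hposM E ?_ M0 ?_ h0
      · intro Φ hΦ f
        obtain ⟨⟨v, hv, rfl⟩, hk⟩ := hE hΦ
        have hπv : π v = 0 := by rw [← hψD]; exact hk
        apply hmemQ
        have h1 : e (com π v f) = f (π v) := by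
          rw [com_apply, pi_eq π v, Finsupp.sum, Finsupp.sum, map_sum, map_sum]
          refine Finset.sum_congr rfl fun γ _ => ?_
          rw [map_smul, map_smul, map_smul, heb, smul_eq_mul, smul_eq_mul, smul_eq_mul, mul_one]
        rw [h1, hπv, map_zero]
      · intro Φ hΦ f hf
        rw [← hs] at hΦ
        induction hΦ using span_induction with
        | mem Φ hΦ =>
          rw [← hw Φ hΦ, com_apply]
          refine Finset.sum_eq_zero fun γ hγ => ?_
          have : bb π γ ∈ M0 := by
            apply subset_span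
            rw [Finset.coe_image]
            refine ⟨γ, ?_, rfl⟩
            rw [hY, Finset.mem_coe, Finset.mem_biUnion]
            exact ⟨Φ, hΦ, hγ⟩
          beta_reduce
          rw [hf _ this, zero_smul, smul_zero]
        | zero => rfl
        | add a b _ _ ha hb => rw [LinearMap.add_apply, ha, hb, add_zero]
        | smul c a _ ha => rw [LinearMap.smul_apply, ha, smul_zero]
  rw [hk]
  exact minU_le_ker _ _ (com_equi hπ) hpos

end com

section main

variable {K : Type*} [Field K] [Finite K] {X : Type*} [Fintype X] (H : Subgroup (FreeGroup X))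

/-- The augmentation submodule of `K[F/H]` is positive if no proper overgroup of `H` is generated
by at most as many elements as `H`. -/
theorem posOn_aug (S : Finset (FreeGroup X)) (hS : Subgroup.closure (S : Set (FreeGroup X)) = H)
    (hmax : ∀ S' : Finset (FreeGroup X), S'.card ≤ S.card →
      H ≤ Subgroup.closure (S' : Set (FreeGroup X)) →
      Subgroup.closure (S' : Set (FreeGroup X)) = H) :
    PosOn (opp K X (FreeGroup X ⧸ H)) (LinearMap.ker (aug K (FreeGroup X ⧸ H))) := by
  classical
  set Ω := FreeGroup X ⧸ H with hΩ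
  set T := opp K X Ω with hT
  set Q := LinearMap.ker (aug K Ω) with hQ
  -- minimizers exist
  have hne : ∃ E, IsMin T Q E := by
    apply exists_isMin T Q (min 0 (1 - (S.card : ℤ)))
    intro F hF hFf
    by_cases h0 : F = ⊥
    · rw [h0, chi_bot]
      exact min_le_left _ _
    · exact (min_le_right _ _).trans (chi_coset_ge H S hS F h0)
  obtain ⟨E0, hE0⟩ := id hne
  have hE0le : chi T E0 ≤ 0 := by
    have := hE0.2.2 ⊥ bot_le inferInstance
    rwa [chi_bot] at this
  set U := minU T Q with hU
  have hQ1 : ∀ x v, v ∈ Q → T x v ∈ Q := by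
    intro x v hv
    rw [hQ, LinearMap.mem_ker] at hv ⊢
    rw [hT, aug_opp, hv]
  have hQ2 : ∀ x v, v ∈ Q → (T x).symm v ∈ Q := by
    intro x v hv
    rw [hQ, LinearMap.mem_ker] at hv ⊢
    rw [hT, aug_opp_symm, hv]
  have hU1 := minU_map_le T hQ1
  have hU2 := minU_map_symm_le T hQ2
  have hUst := map_eq_of_le hU1 hU2
  have hact : ∀ (g : FreeGroup X) (v : Ω →₀ K), v ∈ U → act K Ω g v ∈ U :=
    act_mem_of_stable hU1 hU2
  set π := U.mkQ with hπdef
  have hker : LinearMap.ker π = U := U.ker_mkQ
  have hπ : Equi T (qop T U hUst) π := qop_equi hUst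
  have hsurj : Function.Surjective π := U.mkQ_surjective
  have hUQ : U ≤ Q := minU_le T Q
  let e : ((Ω →₀ K) ⧸ U) →ₗ[K] K := U.liftQ (aug K Ω) hUQ
  have he : ∀ v, e (π v) = aug K Ω v := fun v => U.liftQ_apply _ _
  have hcom := minU_le_ker_com hπ hsurj e he hne hker
  have heb : ∀ γ, e (bb π γ) = 1 := fun γ => by rw [bb, he, aug_single]
  have hb0 : ∀ γ, bb π γ ≠ 0 := by
    intro γ h
    have := heb γ
    rw [h, map_zero] at this
    exact zero_ne_one this
  have hbb : ∀ γ γ' : Ω, bb π γ = bb π γ' ↔ (Finsupp.single γ 1 - Finsupp.single γ' 1 : Ω →₀ K) ∈ U := by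
    intro γ γ'
    rw [bb, bb, ← sub_eq_zero, ← map_sub, ← LinearMap.mem_ker, hker]
  -- invariance
  have hinv : ∀ (g : FreeGroup X) (γ γ' : Ω), bb π γ = bb π γ' → bb π (g • γ) = bb π (g • γ') := by
    intro g γ γ' h
    rw [hbb] at h ⊢
    have := hact g _ h
    rwa [map_sub, act_single, act_single] at this
  -- the overgroup
  let H' : Subgroup (FreeGroup X) :=
    { carrier := {g | bb π ((g : FreeGroup X) : Ω) = bb π ((1 : FreeGroup X) : Ω)}
      mul_mem' := fun {a b} ha hb => by
        have h1 := hinv a _ _ hb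
        change bb π (((a * b : FreeGroup X)) : Ω) = bb π ((a * 1 : FreeGroup X) : Ω) at h1
        rw [mul_one] at h1
        exact h1.trans ha
      one_mem' := rfl
      inv_mem' := fun {a} ha => by
        have := hinv a⁻¹ _ _ ha
        change bb π (((a⁻¹ * a : FreeGroup X)) : Ω) = bb π ((a⁻¹ * 1 : FreeGroup X) : Ω) at this
        rw [inv_mul_cancel, mul_one] at this
        exact this.symm }
  have hHH' : H ≤ H' := by
    intro h hh
    change bb π ((h : FreeGroup X) : Ω) = bb π ((1 : FreeGroup X) : Ω)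
    congr 1
    exact QuotientGroup.eq.2 (by simpa using H.inv_mem hh)
  -- the classes
  have hcl : ∀ g g' : FreeGroup X, bb π (g : Ω) = bb π (g' : Ω) ↔ g⁻¹ * g' ∈ H' := by
    intro g g'
    constructor
    · intro h
      have := hinv g⁻¹ _ _ h
      change bb π (((g⁻¹ * g : FreeGroup X)) : Ω) = bb π ((g⁻¹ * g' : FreeGroup X) : Ω) at this
      rw [inv_mul_cancel] at this
      exact this.symm
    · intro h
      have := hinv g _ _ h
      change bb π (((g * (g⁻¹ * g') : FreeGroup X)) : Ω) = bb π ((g * 1 : FreeGroup X) : Ω) at this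
      rw [mul_inv_cancel_left, mul_one] at this
      exact this.symm
  -- the map from `F/H'`
  let c : FreeGroup X ⧸ H' → Ω := fun y => ((y.out : FreeGroup X) : Ω)
  have hc : ∀ g : FreeGroup X, bb π (c (g : FreeGroup X ⧸ H')) = bb π (g : Ω) := by
    intro g
    refine (hcl _ _).2 ?_
    exact QuotientGroup.eq.1 (QuotientGroup.out_eq' _)
  have hcinj : ∀ y y', bb π (c y) = bb π (c y') → y = y' := by
    intro y y' h
    have := QuotientGroup.eq.2 ((hcl _ _).1 h)
    rwa [QuotientGroup.out_eq', QuotientGroup.out_eq'] at this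
  set b' : FreeGroup X ⧸ H' → (Ω →₀ K) ⧸ U := fun y => bb π (c y) with hb'
  have hlin : LinearIndependent K b' := by
    rw [linearIndependent_iff]
    intro l hl
    have hcc : Function.Injective c := fun y y' h => hcinj y y' (by rw [h])
    have h1 : π (Finsupp.mapDomain c l) = 0 := by
      rw [← hl, Finsupp.linearCombination_apply, pi_eq, Finsupp.sum_mapDomain_index]
      · intro γ; rw [zero_smul]
      · intro γ m₁ m₂; rw [add_smul]
    have h2 := indep π hcom hb0 (Finsupp.mapDomain c l) (by
      intro γ hγ γ' hγ' h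
      have h3 := Finset.mem_image.1 (Finsupp.mapDomain_support (Finset.mem_coe.1 hγ))
      have h4 := Finset.mem_image.1 (Finsupp.mapDomain_support (Finset.mem_coe.1 hγ'))
      obtain ⟨y, _, rfl⟩ := h3
      obtain ⟨y', _, rfl⟩ := h4
      rw [hcinj y y' h]) h1
    exact Finsupp.mapDomain_injective hcc (by rw [h2, Finsupp.mapDomain_zero])
  have hb'x : ∀ (x : X) (y : FreeGroup X ⧸ H'), qop T U hUst x (b' y) = b' (FreeGroup.of x • y) := by
    intro x y
    obtain ⟨g, rfl⟩ := QuotientGroup.mk_surjective y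
    change qop T U hUst x (bb π (c (g : FreeGroup X ⧸ H'))) =
      bb π (c ((FreeGroup.of x * g : FreeGroup X) : FreeGroup X ⧸ H'))
    rw [hc, hc, equi_bb hπ]
    rfl
  have hfin : ∀ Y : Finset (FreeGroup X ⧸ H'),
      finrank K (span K ((Y.image b' : Finset ((Ω →₀ K) ⧸ U)) : Set ((Ω →₀ K) ⧸ U))) = Y.card := by
    intro Y
    rw [finrank_span_finset_eq_card, Finset.card_image_of_injective _ hlin.injective]
    rw [Finset.coe_image]
    exact (hlin.linearIndepOn_id).mono (Set.image_subset_range _ _)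
  -- the Euler characteristics of the finite subgraphs
  have hgraph : ∀ Y : Finset (FreeGroup X ⧸ H'), Y.Nonempty →
      (edg (X := X) Y).card + 1 ≤ Y.card + S.card := by
    intro Y hY
    set E' : Submodule K ((Ω →₀ K) ⧸ U) :=
      span K ((Y.image b' : Finset ((Ω →₀ K) ⧸ U)) : Set ((Ω →₀ K) ⧸ U)) with hE'
    have hE'f : FiniteDimensional K E' := FiniteDimensional.span_finset K _
    have hE'0 : E' ≠ ⊥ := by
      intro h
      have := hfin Y
      rw [← hE', h, finrank_bot] at this
      exact hY.card_pos.ne this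
    -- upper bound
    have hed : ∀ x : X, (Y.filter fun y => FreeGroup.of x • y ∈ Y).card ≤
        finrank K (ed (qop T U hUst x) E' E') := by
      intro x
      rw [← hfin]
      apply Submodule.finrank_mono
      rw [span_le, Finset.coe_image]
      rintro _ ⟨y, hy, rfl⟩
      obtain ⟨hy1, hy2⟩ := Finset.mem_filter.1 (Finset.mem_coe.1 hy)
      refine ⟨subset_span (Finset.mem_coe.2 (Finset.mem_image_of_mem _ hy1)), ?_⟩
      change qop T U hUst x (b' y) ∈ E'
      rw [hb'x]
      exact subset_span (Finset.mem_coe.2 (Finset.mem_image_of_mem _ hy2))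
    have hcard : (edg (X := X) Y).card =
        ∑ x : X, (Y.filter fun y => FreeGroup.of x • y ∈ Y).card := by
      rw [edg, Finset.card_filter, Finset.sum_product]
      refine Finset.sum_congr rfl fun x _ => ?_
      rw [Finset.card_filter]
      refine Finset.sum_congr rfl fun y _ => ?_
      congr
    have hup : chi (qop T U hUst) E' ≤ Y.card - (edg (X := X) Y).card := by
      unfold chi
      rw [hfin, hcard]
      push_cast
      apply sub_le_sub_left
      exact Finset.sum_le_sum fun x _ => by exact_mod_cast hed x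
    -- lower bound
    obtain ⟨E, hEf, hEmap, -, hEchi⟩ := lift_le T (qop T U hUst) hπ E'
      (by rw [LinearMap.range_eq_top.2 hsurj]; exact le_top) ⊥ bot_le (chi T E0) (by
        intro F hF hFf
        rw [hker] at hF
        obtain ⟨G, hG, hFG⟩ := exists_isMin_ge T ⟨E0, hE0⟩ F hF
        exact ⟨G, by rw [hker]; exact le_minU T hG, hFG, hG.2.1, hG.2.2 _ hE0.1 hE0.2.1⟩)
    have hE0' : E ≠ ⊥ := by
      rintro rfl
      apply hE'0
      rw [← hEmap, Submodule.map_bot]
    have := chi_coset_ge H S hS E hE0'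
    zify
    linarith
  obtain ⟨S', hS'c, hS'⟩ := exists_gens (X := X) ((1 : FreeGroup X) : FreeGroup X ⧸ H')
    S.card hgraph
  rw [MulAction.stabilizer_quotient] at hS'
  have hHeq : H' = H := by
    rw [← hS']
    exact hmax S' hS'c (hS'.symm ▸ hHH')
  have hbinj : Function.Injective (bb π) := by
    intro γ γ' h
    obtain ⟨g, rfl⟩ := QuotientGroup.mk_surjective γ
    obtain ⟨g', rfl⟩ := QuotientGroup.mk_surjective γ'
    have := (hcl g g').1 h
    rw [hHeq] at this
    exact QuotientGroup.eq.2 this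
  have hUbot : U = ⊥ := by
    rw [eq_bot_iff]
    intro v hv
    rw [← hker] at hv
    exact indep π hcom hb0 v hbinj.injOn hv
  intro E hE hEf h0
  by_contra hcon
  push Not at hcon
  have hE0b : E0 = ⊥ := by
    rw [eq_bot_iff, ← hUbot]
    exact le_minU T hE0
  have : IsMin T Q E := by
    refine isMin_of_le hE0 hE hEf ?_
    rw [hE0b, chi_bot]
    linarith
  apply h0
  rw [eq_bot_iff, ← hUbot]
  exact le_minU T this

end main

end Pool.Agent.J4H61.RM
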