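import Pool.Agent.J4H61.RM.Chi

set_option autoImplicit false

/-!
# Euler characteristics, homomorphisms and quotients
-/

namespace Pool.Agent.J4H61.RM

open Module Submodule

variable {K V W : Type*} [Field K] [AddCommGroup V] [Module K V] [AddCommGroup W] [Module K W]
variable {X : Type*} [Fintype X] (T : X → V ≃ₗ[K] V) (S : X → W ≃ₗ[K] W)

/-- All nonzero finite-dimensional subspaces of `Q` have a positive Euler characteristic. -/
def PosOn (Q : Submodule K V) : Prop :=
  ∀ E : Submodule K V, E ≤ Q → FiniteDimensional K E → E ≠ ⊥ → 1 ≤ chi T E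

/-- `φ` is compatible with the operators. -/
def Equi (φ : V →ₗ[K] W) : Prop := ∀ x v, φ (T x v) = S x (φ v)

lemma finrank_map_add (φ : V →ₗ[K] W) (E : Submodule K V) [FiniteDimensional K E] :
    finrank K (E.map φ) + finrank K ↥(E ⊓ LinearMap.ker φ) = finrank K E := by
  have h := LinearMap.finrank_range_add_finrank_ker (φ.domRestrict E)
  rw [LinearMap.range_domRestrict] at h
  rw [← h]
  congr 1
  rw [← Submodule.map_comap_subtype E (LinearMap.ker φ), Submodule.finrank_map_subtype_eq]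
  rfl

lemma chi_nonneg {Q : Submodule K V} (hQ : PosOn T Q) (E : Submodule K V) (hE : E ≤ Q)
    [FiniteDimensional K E] : 0 ≤ chi T E := by
  by_cases h : E = ⊥
  · rw [h, chi_bot]
  · exact le_trans zero_le_one (hQ E hE inferInstance h)

lemma chi_hom {φ : V →ₗ[K] W} (hφ : Equi T S φ) (E : Submodule K V) [FiniteDimensional K E] :
    chi S (E.map φ) + chi T (E ⊓ LinearMap.ker φ) ≤ chi T E := by
  have h1 := finrank_map_add φ E
  have h2 : ∀ x, finrank K (ed (T x) E E) ≤ finrank K (ed (S x) (E.map φ) (E.map φ)) +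
      finrank K (ed (T x) (E ⊓ LinearMap.ker φ) (E ⊓ LinearMap.ker φ)) := by
    intro x
    rw [← finrank_map_add φ (ed (T x) E E)]
    have hm : FiniteDimensional K (E.map φ) := inferInstance
    have hi : FiniteDimensional K ↥(E ⊓ LinearMap.ker φ) :=
      Submodule.finiteDimensional_of_le inf_le_left
    refine add_le_add (Submodule.finrank_mono ?_) (Submodule.finrank_mono ?_)
    · rintro _ ⟨v, ⟨hv, hv'⟩, rfl⟩
      refine ⟨Submodule.mem_map_of_mem hv, ?_⟩
      change S x (φ v) ∈ E.map φ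
      rw [← hφ]
      exact Submodule.mem_map_of_mem hv'
    · rintro v ⟨⟨hv, hv'⟩, hk⟩
      refine ⟨⟨hv, hk⟩, hv', ?_⟩
      change φ (T x v) = 0
      rw [hφ, LinearMap.mem_ker.1 hk, map_zero]
  have h3 : ∑ x, (finrank K (ed (T x) E E) : ℤ) ≤
      ∑ x, (finrank K (ed (S x) (E.map φ) (E.map φ)) : ℤ) +
        ∑ x, (finrank K (ed (T x) (E ⊓ LinearMap.ker φ) (E ⊓ LinearMap.ker φ)) : ℤ) := by
    rw [← Finset.sum_add_distrib]
    exact Finset.sum_le_sum fun x _ => by exact_mod_cast h2 x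
  have h4 : (finrank K (E.map φ) : ℤ) + finrank K ↥(E ⊓ LinearMap.ker φ) = finrank K E := by
    exact_mod_cast h1
  unfold chi
  linarith

/-- Extensions of positive modules are positive. -/
lemma posOn_ext {φ : V →ₗ[K] W} (hφ : Equi T S φ) {Q : Submodule K V} {Q' : Submodule K W}
    (h1 : ∀ q ∈ Q, φ q ∈ Q') (h2 : PosOn S Q') (h3 : PosOn T (Q ⊓ LinearMap.ker φ)) :
    PosOn T Q := by
  intro E hE hf h0
  have hi : FiniteDimensional K ↥(E ⊓ LinearMap.ker φ) :=
    Submodule.finiteDimensional_of_le inf_le_left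
  have h := chi_hom T S hφ E
  have hle : E.map φ ≤ Q' := by
    rintro _ ⟨v, hv, rfl⟩
    exact h1 v (hE hv)
  have hk := chi_nonneg T h3 (E ⊓ LinearMap.ker φ) (inf_le_inf_right _ hE)
  by_cases hm : E.map φ = ⊥
  · rw [hm, chi_bot] at h
    have hEk : E ≤ LinearMap.ker φ := by
      intro v hv
      have : φ v ∈ E.map φ := Submodule.mem_map_of_mem hv
      rw [hm] at this
      exact this
    exact h3 E (le_inf hE hEk) hf h0
  · have := h2 _ hle inferInstance hm
    linarith

/-- Lifting finite-dimensional subspaces without increasing the Euler characteristic by more than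
`k`, if the subspaces of the kernel are contained in subspaces of Euler characteristic at most
`k`. -/
lemma lift_le {φ : V →ₗ[K] W} (hφ : Equi T S φ) (E' : Submodule K W) [FiniteDimensional K E']
    (hE' : E' ≤ LinearMap.range φ) (S0 : Submodule K V) (hS0 : S0 ≤ LinearMap.ker φ)
    [FiniteDimensional K S0] (k : ℤ)
    (hex : ∀ F ≤ LinearMap.ker φ, FiniteDimensional K F →
      ∃ F' ≤ LinearMap.ker φ, F ≤ F' ∧ FiniteDimensional K F' ∧ chi T F' ≤ k) :
    ∃ E : Submodule K V, FiniteDimensional K E ∧ E.map φ = E' ∧ S0 ≤ E ∧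
      chi T E ≤ chi S E' + k := by
  -- a linear section over `E'`
  obtain ⟨σ, hσ⟩ : ∃ σ : E' →ₗ[K] V, ∀ e, φ (σ e) = e := by
    have hsurj : Function.Surjective (φ.submoduleComap E') := by
      rintro ⟨w, hw⟩
      obtain ⟨v, rfl⟩ := hE' hw
      exact ⟨⟨v, hw⟩, rfl⟩
    obtain ⟨g, hg⟩ := (φ.submoduleComap E').exists_rightInverse_of_surjective
      (LinearMap.range_eq_top.2 hsurj)
    refine ⟨(E'.comap φ).subtype ∘ₗ g, fun e => ?_⟩
    have := congrArg Subtype.val (LinearMap.congr_fun hg e)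
    exact this
  have hσinj : Function.Injective σ := by
    intro a b hab
    apply Subtype.ext
    rw [← hσ a, ← hσ b, hab]
  -- the defects
  let ι1 : ∀ x, ed (S x) E' E' →ₗ[K] E' := fun x => Submodule.inclusion (ed_le _ _ _)
  let ι2 : ∀ x, ed (S x) E' E' →ₗ[K] E' := fun x =>
    LinearMap.codRestrict E' ((S x : W →ₗ[K] W) ∘ₗ (ed (S x) E' E').subtype) fun e => e.2.2
  let δ : ∀ x, ed (S x) E' E' →ₗ[K] V := fun x =>
    (T x : V →ₗ[K] V) ∘ₗ σ ∘ₗ ι1 x - σ ∘ₗ ι2 x
  have hδ : ∀ x e, δ x e = T x (σ (ι1 x e)) - σ (ι2 x e) := fun x e => rfl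
  have hδk : ∀ x, LinearMap.range (δ x) ≤ LinearMap.ker φ := by
    rintro x _ ⟨e, rfl⟩
    rw [LinearMap.mem_ker, hδ, map_sub, hφ, hσ, hσ]
    exact sub_self _
  have hFfd : FiniteDimensional K ↥(S0 ⊔ ⨆ x, LinearMap.range (δ x)) := by
    have : FiniteDimensional K ↥(⨆ x, LinearMap.range (δ x)) := Submodule.finiteDimensional_iSup _
    exact Submodule.finiteDimensional_sup _ _
  obtain ⟨EU, hEU, hFEU, hEUf, hchi⟩ := hex (S0 ⊔ ⨆ x, LinearMap.range (δ x))
    (sup_le hS0 (iSup_le hδk)) hFfd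
  have hrf : FiniteDimensional K (LinearMap.range σ) := inferInstance
  have hEf : FiniteDimensional K ↥(LinearMap.range σ ⊔ EU) := Submodule.finiteDimensional_sup _ _
  refine ⟨LinearMap.range σ ⊔ EU, hEf, ?_, ?_, ?_⟩
  · rw [Submodule.map_sup]
    have h1 : EU.map φ = ⊥ := by
      rw [eq_bot_iff]
      rintro _ ⟨v, hv, rfl⟩
      exact hEU hv
    rw [h1, sup_bot_eq]
    ext w
    constructor
    · rintro ⟨_, ⟨e, rfl⟩, rfl⟩
      rw [hσ]; exact e.2
    · intro hw
      exact ⟨σ ⟨w, hw⟩, ⟨_, rfl⟩, hσ _⟩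
  · exact le_sup_left.trans (hFEU.trans le_sup_right)
  · -- the Euler characteristic
    have h1 : finrank K ↥(LinearMap.range σ ⊔ EU) ≤ finrank K E' + finrank K EU :=
      (Submodule.finrank_add_le_finrank_add_finrank _ _).trans
        (Nat.add_le_add_right (LinearMap.finrank_range_le σ) _)
    have h2 : ∀ x, finrank K (ed (S x) E' E') + finrank K (ed (T x) EU EU) ≤
        finrank K (ed (T x) (LinearMap.range σ ⊔ EU) (LinearMap.range σ ⊔ EU)) := by
      intro x
      have hAr : finrank K (LinearMap.range (σ ∘ₗ ι1 x)) = finrank K (ed (S x) E' E') :=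
        LinearMap.finrank_range_of_inj (hσinj.comp (Submodule.inclusion_injective _))
      rw [← hAr, ← Submodule.finrank_sup_add_finrank_inf_eq]
      have hdis : LinearMap.range (σ ∘ₗ ι1 x) ⊓ ed (T x) EU EU = ⊥ := by
        rw [eq_bot_iff]
        rintro _ ⟨⟨e, rfl⟩, he, _⟩
        have h0 : φ (σ (ι1 x e)) = 0 := hEU he
        rw [hσ] at h0
        have : ι1 x e = 0 := Subtype.ext h0
        rw [Submodule.mem_bot, LinearMap.comp_apply, this, map_zero]
      rw [hdis, finrank_bot, add_zero]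
      apply Submodule.finrank_mono
      refine sup_le ?_ (ed_mono le_sup_right le_sup_right)
      rintro _ ⟨e, rfl⟩
      refine ⟨le_sup_left (α := Submodule K V) ⟨_, rfl⟩, ?_⟩
      change T x (σ (ι1 x e)) ∈ LinearMap.range σ ⊔ EU
      have : T x (σ (ι1 x e)) = σ (ι2 x e) + δ x e := by rw [hδ]; abel
      rw [this]
      refine Submodule.add_mem _ (le_sup_left (α := Submodule K V) ⟨_, rfl⟩) ?_
      refine le_sup_right (α := Submodule K V) (hFEU ?_)
      exact le_sup_right (α := Submodule K V)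
        ((le_iSup (fun x => LinearMap.range (δ x)) x) ⟨e, rfl⟩)
    have h3 : ∑ x, (finrank K (ed (S x) E' E') : ℤ) + ∑ x, (finrank K (ed (T x) EU EU) : ℤ) ≤
        ∑ x, (finrank K (ed (T x) (LinearMap.range σ ⊔ EU) (LinearMap.range σ ⊔ EU)) : ℤ) := by
      rw [← Finset.sum_add_distrib]
      exact Finset.sum_le_sum fun x _ => by exact_mod_cast h2 x
    have h4 : (finrank K ↥(LinearMap.range σ ⊔ EU) : ℤ) ≤ finrank K E' + finrank K EU := by
      exact_mod_cast h1
    unfold chi at hchi ⊢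
    linarith

/-- `E` is a finite-dimensional subspace of `Q` with the least Euler characteristic. -/
def IsMin (Q E : Submodule K V) : Prop :=
  E ≤ Q ∧ FiniteDimensional K E ∧ ∀ F ≤ Q, FiniteDimensional K F → chi T E ≤ chi T F

lemma exists_isMin (Q : Submodule K V) (c : ℤ)
    (hc : ∀ F ≤ Q, FiniteDimensional K F → c ≤ chi T F) : ∃ E, IsMin T Q E := by
  obtain ⟨m, ⟨E, hE, hf, rfl⟩, hm⟩ := Int.exists_least_of_bdd
    (P := fun z => ∃ E ≤ Q, FiniteDimensional K E ∧ chi T E = z)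
    ⟨c, by rintro z ⟨E, hE, hf, rfl⟩; exact hc E hE hf⟩
    ⟨_, ⊥, bot_le, inferInstance, rfl⟩
  exact ⟨E, hE, hf, fun F hF hFf => hm _ ⟨F, hF, hFf, rfl⟩⟩

variable {T}

lemma IsMin.sup {Q E F : Submodule K V} (hE : IsMin T Q E) (hF : IsMin T Q F) :
    IsMin T Q (E ⊔ F) := by
  obtain ⟨h1, hf1, h2⟩ := hE
  obtain ⟨h3, hf2, h4⟩ := hF
  refine ⟨sup_le h1 h3, Submodule.finiteDimensional_sup _ _, fun G hG hGf => ?_⟩
  have h5 := chi_sup_add_inf T E F
  have h6 := h2 (E ⊓ F) (inf_le_left.trans h1) (Submodule.finiteDimensional_of_le inf_le_left)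
  have h7 := h4 G hG hGf
  linarith

lemma isMin_of_le {Q E F : Submodule K V} (hE : IsMin T Q E) (hF : F ≤ Q)
    (hFf : FiniteDimensional K F) (h : chi T F ≤ chi T E) : IsMin T Q F :=
  ⟨hF, hFf, fun G hG hGf => h.trans (hE.2.2 G hG hGf)⟩

variable (T)

/-- The union of the minimizers. -/
def minU (Q : Submodule K V) : Submodule K V := sSup {E | IsMin T Q E}

lemma minU_le (Q : Submodule K V) : minU T Q ≤ Q := sSup_le fun _ hE => hE.1

lemma le_minU {Q E : Submodule K V} (hE : IsMin T Q E) : E ≤ minU T Q := le_sSup hE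

lemma exists_isMin_ge {Q : Submodule K V} (hne : ∃ E, IsMin T Q E) (F : Submodule K V)
    [FiniteDimensional K F] (hF : F ≤ minU T Q) : ∃ E, IsMin T Q E ∧ F ≤ E := by
  have hfg : F.FG := (Submodule.fg_iff_finiteDimensional F).2 inferInstance
  have hc := (Submodule.fg_iff_compact F).1 hfg
  obtain ⟨E, hE, hx⟩ := (CompleteLattice.isCompactElement_iff_le_of_directed_sSup_le _ _).1
    hc {E | IsMin T Q E} hne
    (fun E hE G hG => ⟨E ⊔ G, IsMin.sup hE hG, le_sup_left, le_sup_right⟩) hF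
  exact ⟨E, hE, hx⟩

lemma minU_map_le {Q : Submodule K V} (hQ : ∀ x v, v ∈ Q → T x v ∈ Q) (x : X) :
    (minU T Q).map (T x : V →ₗ[K] V) ≤ minU T Q := by
  unfold minU
  rw [sSup_eq_iSup', Submodule.map_iSup]
  refine iSup_le ?_
  rintro ⟨E, hE⟩
  have hf := hE.2.1
  have : IsMin T Q (E ⊔ E.map (T x : V →ₗ[K] V)) := by
    refine isMin_of_le hE (sup_le hE.1 ?_) (Submodule.finiteDimensional_sup _ _) (chi_grow T E x)
    rintro _ ⟨v, hv, rfl⟩
    exact hQ x v (hE.1 hv)
  exact le_sup_right.trans (le_iSup (fun E : {E | IsMin T Q E} => (E : Submodule K V)) ⟨_, this⟩)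

lemma minU_map_symm_le {Q : Submodule K V} (hQ : ∀ x v, v ∈ Q → (T x).symm v ∈ Q) (x : X) :
    (minU T Q).map ((T x).symm : V →ₗ[K] V) ≤ minU T Q := by
  unfold minU
  rw [sSup_eq_iSup', Submodule.map_iSup]
  refine iSup_le ?_
  rintro ⟨E, hE⟩
  have hf := hE.2.1
  have : IsMin T Q (E ⊔ E.map ((T x).symm : V →ₗ[K] V)) := by
    refine isMin_of_le hE (sup_le hE.1 ?_) (Submodule.finiteDimensional_sup _ _)
      (chi_grow_symm T E x)
    rintro _ ⟨v, hv, rfl⟩
    exact hQ x v (hE.1 hv)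
  exact le_sup_right.trans (le_iSup (fun E : {E | IsMin T Q E} => (E : Submodule K V)) ⟨_, this⟩)

/-- The quotient by the union of the minimizers is positive. -/
theorem posOn_quot {Q : Submodule K V} (hne : ∃ E, IsMin T Q E) {φ : V →ₗ[K] W}
    (hφ : Equi T S φ) (hk : LinearMap.ker φ = minU T Q) : PosOn S (Q.map φ) := by
  intro E' hE' hf h0
  by_contra hcon
  push Not at hcon
  obtain ⟨E0, hE0⟩ := hne
  have hkQ : LinearMap.ker φ ≤ Q := hk ▸ minU_le T Q
  obtain ⟨E, hEf, hmap, -, hchi⟩ := lift_le T S hφ E'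
    (hE'.trans (LinearMap.map_le_range)) ⊥ bot_le (chi T E0) (by
      intro F hF hFf
      rw [hk] at hF
      obtain ⟨G, hG, hFG⟩ := exists_isMin_ge T ⟨E0, hE0⟩ F hF
      exact ⟨G, by rw [hk]; exact le_minU T hG, hFG, hG.2.1, hG.2.2 _ hE0.1 hE0.2.1⟩)
  have hEQ : E ≤ Q := by
    intro v hv
    have : φ v ∈ Q.map φ := hE' (hmap ▸ Submodule.mem_map_of_mem hv)
    obtain ⟨q, hq, hqv⟩ := this
    have h1 : v - q ∈ LinearMap.ker φ := by rw [LinearMap.mem_ker, map_sub, hqv, sub_self]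
    have := Q.add_mem (hkQ h1) hq
    simpa using this
  have hmin : IsMin T Q E := isMin_of_le hE0 hEQ hEf (by linarith)
  apply h0
  rw [← hmap, eq_bot_iff]
  rintro _ ⟨v, hv, rfl⟩
  have := le_minU T hmin hv
  rw [← hk] at this
  exact this

/-- The union of the minimizers is contained in the kernel of every homomorphism onto a positive
module. -/
theorem minU_le_ker {Q : Submodule K V} {φ : V →ₗ[K] W} (hφ : Equi T S φ)
    (hpos : PosOn S (Q.map φ)) : minU T Q ≤ LinearMap.ker φ := by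
  refine sSup_le ?_
  rintro E ⟨hE, hf, hmin⟩
  by_contra hcon
  have h0 : E.map φ ≠ ⊥ := by
    intro h
    apply hcon
    intro v hv
    have : φ v ∈ E.map φ := Submodule.mem_map_of_mem hv
    rw [h] at this
    exact this
  have h1 := hpos (E.map φ) (Submodule.map_mono hE) inferInstance h0
  have h2 := chi_hom T S hφ E
  have h3 := hmin (E ⊓ LinearMap.ker φ) (inf_le_left.trans hE)
    (Submodule.finiteDimensional_of_le inf_le_left)
  linarith

end Pool.Agent.J4H61.RM
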