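import Pool.Agent.J4H61.RM.Quot

set_option autoImplicit false

/-!
# Positivity of twisted modules over a finite field
-/

namespace Pool.Agent.J4H61.RM

open Module Submodule

section fam

variable {K P : Type*} [Field K] [AddCommGroup P] [Module K P]
variable {X : Type*} [Fintype X] {G : Type*} [Group G] [Fintype G]
variable (α : X → G) (T : X → P ≃ₗ[K] P)

/-- Euler characteristic of a family of subspaces indexed by a finite group. -/
noncomputable def fchi (E : G → Submodule K P) : ℤ :=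
  ∑ g, (finrank K (E g) : ℤ) - ∑ x, ∑ g, (finrank K (ed (T x) (E g) (E (α x * g))) : ℤ)

lemma fchi_sup_add_inf (E F : G → Submodule K P) (hE : ∀ g, FiniteDimensional K (E g))
    (hF : ∀ g, FiniteDimensional K (F g)) :
    fchi α T (fun g => E g ⊔ F g) + fchi α T (fun g => E g ⊓ F g) ≤ fchi α T E + fchi α T F := by
  have h1 : ∑ g, (finrank K ↥(E g ⊔ F g) : ℤ) + ∑ g, (finrank K ↥(E g ⊓ F g) : ℤ) =
      ∑ g, (finrank K (E g) : ℤ) + ∑ g, (finrank K (F g) : ℤ) := by
    rw [← Finset.sum_add_distrib, ← Finset.sum_add_distrib]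
    refine Finset.sum_congr rfl fun g _ => ?_
    exact_mod_cast Submodule.finrank_sup_add_finrank_inf_eq (K := K) (E g) (F g)
  have h2 : ∑ x, ∑ g, (finrank K (ed (T x) (E g) (E (α x * g))) : ℤ) +
      ∑ x, ∑ g, (finrank K (ed (T x) (F g) (F (α x * g))) : ℤ) ≤
      ∑ x, ∑ g, (finrank K (ed (T x) (E g ⊔ F g) (E (α x * g) ⊔ F (α x * g))) : ℤ) +
      ∑ x, ∑ g, (finrank K (ed (T x) (E g ⊓ F g) (E (α x * g) ⊓ F (α x * g))) : ℤ) := by
    rw [← Finset.sum_add_distrib, ← Finset.sum_add_distrib]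
    refine Finset.sum_le_sum fun x _ => ?_
    rw [← Finset.sum_add_distrib, ← Finset.sum_add_distrib]
    refine Finset.sum_le_sum fun g _ => ?_
    exact_mod_cast finrank_ed_add (T x) (E g) (E (α x * g)) (F g) (F (α x * g))
  unfold fchi
  linarith

lemma fchi_shift (E : G → Submodule K P) (k : G) :
    fchi α T (fun g => E (g * k)) = fchi α T E := by
  unfold fchi
  congr 1
  · exact Fintype.sum_equiv (Equiv.mulRight k) _ _ fun g => rfl
  · refine Finset.sum_congr rfl fun x _ => ?_
    refine Fintype.sum_equiv (Equiv.mulRight k) _ _ fun g => ?_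
    exact congrArg (fun h => (finrank K (ed (T x) (E (g * k)) (E h)) : ℤ)) (mul_assoc _ _ _)

lemma fchi_const (E0 : Submodule K P) :
    fchi α T (fun _ => E0) = Fintype.card G * chi T E0 := by
  unfold fchi chi
  simp only [Finset.sum_const, Finset.card_univ, nsmul_eq_mul]
  rw [mul_sub, Finset.mul_sum]

lemma fchi_ge (E : G → Submodule K P) (W : Submodule K P) [FiniteDimensional K W]
    (h : ∀ g, E g ≤ W) :
    -((Fintype.card X : ℤ) * (Fintype.card G * finrank K W)) ≤ fchi α T E := by
  have h1 : ∑ x, ∑ g, (finrank K (ed (T x) (E g) (E (α x * g))) : ℤ) ≤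
      ∑ _x : X, ∑ _g : G, (finrank K W : ℤ) := by
    refine Finset.sum_le_sum fun x _ => Finset.sum_le_sum fun g _ => ?_
    exact_mod_cast Submodule.finrank_mono ((ed_le _ _ _).trans (h g))
  simp only [Finset.sum_const, Finset.card_univ, nsmul_eq_mul] at h1
  have h2 : (0 : ℤ) ≤ ∑ g, (finrank K (E g) : ℤ) := Finset.sum_nonneg fun _ _ => by positivity
  unfold fchi
  linarith

lemma fchi_bot : fchi α T (fun _ => (⊥ : Submodule K P)) = 0 := by
  rw [fchi_const, chi_bot, mul_zero]

theorem fpos {Q : Submodule K P} (hQ : PosOn T Q) (E : G → Submodule K P) (hE : ∀ g, E g ≤ Q)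
    (hf : ∀ g, FiniteDimensional K (E g)) (h0 : ∃ g, E g ≠ ⊥) : 1 ≤ fchi α T E := by
  classical
  by_contra hcon
  push Not at hcon
  set W : Submodule K P := ⨆ g, E g with hW
  have hWf : FiniteDimensional K W := Submodule.finiteDimensional_iSup _
  have hWQ : W ≤ Q := iSup_le hE
  obtain ⟨μ, ⟨F, hFW, hFμ⟩, hμ⟩ := Int.exists_least_of_bdd
    (P := fun z => ∃ F : G → Submodule K P, (∀ g, F g ≤ W) ∧ fchi α T F = z)
    ⟨_, by rintro z ⟨F, hF, rfl⟩; exact fchi_ge α T F W hF⟩
    ⟨_, E, fun g => le_iSup E g, rfl⟩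
  have hEμ : μ ≤ fchi α T E := hμ _ ⟨E, fun g => le_iSup E g, rfl⟩
  obtain ⟨F, hFW, hFμ, g0, hg0⟩ : ∃ F : G → Submodule K P, (∀ g, F g ≤ W) ∧ fchi α T F = μ ∧
      ∃ g, F g ≠ ⊥ := by
    by_cases h : ∃ g, F g ≠ ⊥
    · exact ⟨F, hFW, hFμ, h⟩
    · push Not at h
      have : F = fun _ => ⊥ := funext h
      rw [this, fchi_bot] at hFμ
      refine ⟨E, fun g => le_iSup E g, ?_, h0⟩
      linarith
  -- the sup of the translates
  have hmin : ∀ s : Finset G, s.Nonempty →
      fchi α T (fun g => s.sup fun k => F (g * k)) = μ ∧ ∀ g, (s.sup fun k => F (g * k)) ≤ W := by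
    intro s hs
    induction hs using Finset.Nonempty.cons_induction with
    | singleton k =>
      simp only [Finset.sup_singleton]
      exact ⟨by rw [fchi_shift, hFμ], fun g => hFW _⟩
    | cons k s hk hs ih =>
      obtain ⟨ih1, ih2⟩ := ih
      simp only [Finset.sup_cons]
      have hfd1 : ∀ g, FiniteDimensional K (F (g * k)) := fun g =>
        Submodule.finiteDimensional_of_le (hFW _)
      have hfd2 : ∀ g, FiniteDimensional K ↥(s.sup fun k => F (g * k)) := fun g =>
        Submodule.finiteDimensional_of_le (ih2 g)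
      have h1 := fchi_sup_add_inf α T (fun g => F (g * k)) (fun g => s.sup fun k => F (g * k))
        hfd1 hfd2
      have h2 : μ ≤ fchi α T (fun g => F (g * k) ⊓ s.sup fun k => F (g * k)) :=
        hμ _ ⟨_, fun g => inf_le_left.trans (hFW _), rfl⟩
      have h3 : ∀ g, F (g * k) ⊔ (s.sup fun k => F (g * k)) ≤ W := fun g =>
        sup_le (hFW _) (ih2 g)
      have h4 : μ ≤ fchi α T (fun g => F (g * k) ⊔ s.sup fun k => F (g * k)) :=
        hμ _ ⟨_, h3, rfl⟩
      have h5 : fchi α T (fun g => F (g * k)) = μ := by rw [fchi_shift, hFμ]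
      refine ⟨?_, h3⟩
      linarith
  obtain ⟨h1, h2⟩ := hmin Finset.univ Finset.univ_nonempty
  have hconst : (fun g => Finset.univ.sup fun k => F (g * k)) =
      fun _ : G => Finset.univ.sup F := by
    funext g
    apply le_antisymm
    · exact Finset.sup_le fun k _ => Finset.le_sup (Finset.mem_univ _)
    · refine Finset.sup_le fun k _ => ?_
      have : F k = F (g * (g⁻¹ * k)) := by rw [mul_inv_cancel_left]
      rw [this]
      exact Finset.le_sup (f := fun k => F (g * k)) (Finset.mem_univ (g⁻¹ * k))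
  rw [hconst, fchi_const] at h1
  have hE0 : Finset.univ.sup F ≤ W := Finset.sup_le fun k _ => hFW k
  have hE0f : FiniteDimensional K ↥(Finset.univ.sup F) := Submodule.finiteDimensional_of_le hE0
  have hne : Finset.univ.sup F ≠ ⊥ := by
    intro h
    apply hg0
    rw [eq_bot_iff, ← h]
    exact Finset.le_sup (Finset.mem_univ _)
  have h3 := hQ _ (hE0.trans hWQ) hE0f hne
  have h4 : (0 : ℤ) < Fintype.card G := by exact_mod_cast Fintype.card_pos
  nlinarith

end fam

section hom

variable {K : Type*} [Field K] (D : Type*) [AddCommGroup D] [Module K D]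
  {P : Type*} [AddCommGroup P] [Module K P]
variable {X : Type*} [Fintype X] (T : X → P ≃ₗ[K] P)

/-- The linear maps with values in `Q`. -/
def homInto (Q : Submodule K P) : Submodule K (D →ₗ[K] P) where
  carrier := {Φ | ∀ d, Φ d ∈ Q}
  add_mem' := fun h h' d => Q.add_mem (h d) (h' d)
  zero_mem' := fun _ => Q.zero_mem
  smul_mem' := fun c _ h d => Q.smul_mem c (h d)

variable {D}

/-- Twisted operators on `Hom(D, P)`. -/
def tw (α : X → D ≃ₗ[K] D) (x : X) : (D →ₗ[K] P) ≃ₗ[K] (D →ₗ[K] P) :=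
  LinearEquiv.arrowCongr (α x).symm (T x)

lemma tw_apply (α : X → D ≃ₗ[K] D) (x : X) (Φ : D →ₗ[K] P) (d : D) :
    tw T α x Φ d = T x (Φ (α x d)) := rfl

/-- `Hom(D, P)` with the untwisted operators is positive. -/
lemma posOn_untwisted [FiniteDimensional K D] {Q : Submodule K P} (hQ : PosOn T Q) :
    PosOn (tw T fun _ => LinearEquiv.refl K D) (homInto D Q) := by
  classical
  let b := Module.finBasis K D
  have key : ∀ s : Finset (Fin (finrank K D)), ∀ E : Submodule K (D →ₗ[K] P),
      E ≤ homInto D Q → FiniteDimensional K E → (∀ Φ ∈ E, ∀ j ∉ s, Φ (b j) = 0) → E ≠ ⊥ →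
      1 ≤ chi (tw T fun _ => LinearEquiv.refl K D) E := by
    intro s
    induction s using Finset.induction_on with
    | empty =>
      intro E _ _ h h0
      exfalso
      apply h0
      rw [eq_bot_iff]
      intro Φ hΦ
      rw [Submodule.mem_bot]
      exact b.ext fun j => by simpa using h Φ hΦ j (by simp)
    | insert j s hj ih =>
      intro E hE hEf h h0
      let ev : (D →ₗ[K] P) →ₗ[K] P := LinearMap.applyₗ (b j)
      have hev : Equi (tw T fun _ => LinearEquiv.refl K D) T ev := fun x Φ => rfl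
      have hchi := chi_hom _ T hev E
      have hi : FiniteDimensional K ↥(E ⊓ LinearMap.ker ev) :=
        Submodule.finiteDimensional_of_le inf_le_left
      have h1 : E.map ev ≤ Q := by
        rintro _ ⟨Φ, hΦ, rfl⟩
        exact hE hΦ (b j)
      have h2 : E ⊓ LinearMap.ker ev ≠ ⊥ →
          1 ≤ chi (tw T fun _ => LinearEquiv.refl K D) (E ⊓ LinearMap.ker ev) := by
        apply ih _ (inf_le_left.trans hE) hi
        rintro Φ ⟨hΦ, hk⟩ i hi
        by_cases hij : i = j
        · rw [hij]; exact hk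
        · exact h Φ hΦ i (by simp [hij, hi])
      have h3 := chi_nonneg T hQ (E.map ev) h1
      by_cases hb : E ⊓ LinearMap.ker ev = ⊥
      · have h4 : E.map ev ≠ ⊥ := by
          intro hm
          apply h0
          rw [← hb]
          refine (inf_eq_left.2 fun Φ hΦ => ?_).symm
          have : ev Φ ∈ E.map ev := Submodule.mem_map_of_mem hΦ
          rw [hm] at this
          exact this
        have h5 := hQ _ h1 inferInstance h4
        rw [hb, chi_bot] at hchi
        linarith
      · have := h2 hb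
        linarith
  intro E hE hEf h0
  exact key Finset.univ E hE hEf (by simp) h0

/-- `Hom(D, P)` with arbitrary twisted operators is positive, if the field is finite. -/
theorem posOn_tw [Finite K] [FiniteDimensional K D] {Q : Submodule K P} (hQ : PosOn T Q)
    (α : X → D ≃ₗ[K] D) : PosOn (tw T α) (homInto D Q) := by
  classical
  have hD : Finite D := Module.finite_of_finite K
  have hG : Finite (D ≃ₗ[K] D) := DFunLike.finite _
  have : Fintype (D ≃ₗ[K] D) := Fintype.ofFinite _
  intro E hE hEf h0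
  let pre : (D ≃ₗ[K] D) → ((D →ₗ[K] P) ≃ₗ[K] (D →ₗ[K] P)) := fun g =>
    LinearEquiv.arrowCongr g.symm (LinearEquiv.refl K P)
  have hpre : ∀ g Φ d, pre g Φ d = Φ (g d) := fun g Φ d => rfl
  let F : (D ≃ₗ[K] D) → Submodule K (D →ₗ[K] P) := fun g =>
    E.map (pre g : (D →ₗ[K] P) →ₗ[K] (D →ₗ[K] P))
  have hed : ∀ x g, ed (tw T (fun _ => LinearEquiv.refl K D) x) (F g) (F ((α x)⁻¹ * g)) =
      (ed (tw T α x) E E).map (pre g : (D →ₗ[K] P) →ₗ[K] (D →ₗ[K] P)) := by
    intro x g
    ext Ψ
    constructor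
    · rintro ⟨⟨Φ, hΦ, rfl⟩, ⟨Φ', hΦ', h⟩⟩
      refine ⟨Φ, ⟨hΦ, ?_⟩, rfl⟩
      have : tw T α x Φ = Φ' := by
        ext d
        have h1 := LinearMap.congr_fun h (g⁻¹ (α x d))
        change Φ' (((α x)⁻¹ * g) (g⁻¹ (α x d))) = T x (Φ (g (g⁻¹ (α x d)))) at h1
        have e1 : g (g⁻¹ (α x d)) = α x d := g.apply_symm_apply _
        have e2 : ((α x)⁻¹ * g) (g⁻¹ (α x d)) = d := by
          change (α x).symm (g (g⁻¹ (α x d))) = d
          rw [e1]; exact (α x).symm_apply_apply d
        rw [e1, e2] at h1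
        rw [tw_apply, h1]
      change tw T α x Φ ∈ E
      rw [this]
      exact hΦ'
    · rintro ⟨Φ, ⟨hΦ, hΦ'⟩, rfl⟩
      refine ⟨⟨Φ, hΦ, rfl⟩, ⟨tw T α x Φ, hΦ', ?_⟩⟩
      ext d
      change T x (Φ (α x (((α x)⁻¹ * g) d))) = T x (Φ (g d))
      congr 2
      exact (α x).apply_symm_apply (g d)
  have hFf : ∀ g, FiniteDimensional K (F g) := fun g => inferInstance
  have hF := fpos (fun x => (α x)⁻¹) (tw T fun _ => LinearEquiv.refl K D)
    (posOn_untwisted (D := D) T hQ) F (by
      rintro g _ ⟨Φ, hΦ, rfl⟩ d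
      exact hE hΦ (g d)) hFf ⟨1, by
        intro h
        apply h0
        rw [eq_bot_iff]
        intro Φ hΦ
        have : pre 1 Φ ∈ F 1 := Submodule.mem_map_of_mem hΦ
        rw [h, Submodule.mem_bot, LinearEquiv.map_eq_zero_iff] at this
        exact this⟩
  have hval : fchi (fun x => (α x)⁻¹) (tw T fun _ => LinearEquiv.refl K D) F =
      Fintype.card (D ≃ₗ[K] D) * chi (tw T α) E := by
    unfold fchi chi
    have h1 : ∀ g, finrank K (F g) = finrank K E := fun g => LinearEquiv.finrank_map_eq (pre g) E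
    have h2 : ∀ x g, finrank K (ed (tw T (fun _ => LinearEquiv.refl K D) x) (F g)
        (F ((α x)⁻¹ * g))) = finrank K (ed (tw T α x) E E) := fun x g => by
      rw [hed]; exact LinearEquiv.finrank_map_eq (pre g) _
    simp only [h1, h2, Finset.sum_const, Finset.card_univ, nsmul_eq_mul]
    rw [mul_sub, Finset.mul_sum]
  rw [hval] at hF
  have h4 : (0 : ℤ) < Fintype.card (D ≃ₗ[K] D) := by exact_mod_cast Fintype.card_pos
  by_contra hcon
  push Not at hcon
  nlinarith

/-- Two surjections from a finite-dimensional space differ by an automorphism. -/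
lemma exists_equiv_comp [FiniteDimensional K D] {D' : Type*} [AddCommGroup D'] [Module K D']
    (q φ : D →ₗ[K] D') (hq : Function.Surjective q) (hφ : Function.Surjective φ) :
    ∃ β : D ≃ₗ[K] D, ∀ d, q (β d) = φ d := by
  obtain ⟨C, hC⟩ := Submodule.exists_isCompl (LinearMap.ker φ)
  obtain ⟨σ, hσ⟩ := q.exists_rightInverse_of_surjective (LinearMap.range_eq_top.2 hq)
  have hσ' : ∀ d, q (σ d) = d := fun d => LinearMap.congr_fun hσ d
  have hfr : finrank K (LinearMap.ker φ) = finrank K (LinearMap.ker q) := by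
    have h1 := LinearMap.finrank_range_add_finrank_ker φ
    have h2 := LinearMap.finrank_range_add_finrank_ker q
    rw [LinearMap.range_eq_top.2 hφ] at h1
    rw [LinearMap.range_eq_top.2 hq] at h2
    omega
  let κ : LinearMap.ker φ ≃ₗ[K] LinearMap.ker q := LinearEquiv.ofFinrankEq _ _ hfr
  let p : D →ₗ[K] LinearMap.ker φ := Submodule.projectionOnto _ _ hC
  let f : D →ₗ[K] D := (LinearMap.ker q).subtype ∘ₗ (κ : _ →ₗ[K] _) ∘ₗ p + σ ∘ₗ φ
  have hf : ∀ d, f d = κ (p d) + σ (φ d) := fun d => rfl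
  have hqf : ∀ d, q (f d) = φ d := by
    intro d
    rw [hf, map_add, hσ', LinearMap.mem_ker.1 (κ (p d)).2, zero_add]
  have hinj : Function.Injective f := by
    rw [← LinearMap.ker_eq_bot, eq_bot_iff]
    intro d hd
    have hd0 : f d = 0 := hd
    have h1 : φ d = 0 := by rw [← hqf, hd0, map_zero]
    have h2 : p d = ⟨d, h1⟩ := Submodule.projectionOnto_apply_left hC ⟨d, h1⟩
    rw [hf, h1, map_zero, add_zero] at hd0
    have h3 : κ (p d) = 0 := Subtype.ext hd0
    rw [LinearEquiv.map_eq_zero_iff, h2] at h3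
    exact congrArg Subtype.val h3
  exact ⟨LinearEquiv.ofInjectiveEndo f hinj, fun d => by
    rw [LinearEquiv.coe_ofInjectiveEndo]; exact hqf d⟩

end hom

end Pool.Agent.J4H61.RM
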